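import Pool.Agent.Q36.GP.Gf

/-!
The structure of varieties dominated by products of varieties.
-/

set_option autoImplicit false
set_option linter.overlappingInstances false
set_option linter.unusedSectionVars false

open Polynomial FF IsDedekindDomain IntermediateField
open Pool.Agent.W603.LV Pool.Agent.W619.PQ Pool.Agent.W619.PL
  Pool.Agent.W619.TW Pool.Agent.W619.X Pool.Agent.W619.Y Q36.PT Q36.SD Q36.HB Q36.HL Q36.GV

namespace Q36.GP

section

variable {k L M : Type} [Field k] [CharZero k] [IsAlgClosed k] [Field L] [Field M]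
  [Algebra k L] [Algebra k M] [Algebra L M] [IsScalarTower k L M] [FiniteDimensional L M]
  {s : ℕ} {d : Fin s → ℕ} (F : Fin s → IntermediateField k M)
  [hess : ∀ i, Algebra.EssFiniteType k (F i)]

/-- **The dimension of the canonical image and the numerical dimension.** -/
theorem imgP (hd : ∀ i, Algebra.trdeg k (F i) = d i)
    (hM : Algebra.trdeg k M = (∑ i, d i : ℕ)) (hsup : ⨆ i, F i = ⊤) {c a : Fin s → ℕ}
    (hg : ∀ i, Gfac k (F i) (d i) (c i) (a i))
    (B : Finset (Fin s))
    (hB : ∀ i ∈ B, 2 * Module.finrank L (IntermediateField.adjoin L (F i : Set M)) ≤ c i + 1)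
    (hQ : ∀ Q : Finset (Fin s), Disjoint Q B →
      Module.finrank (IntermediateField.adjoin L {z : M | ∃ j, j ∉ Q ∧ z ∈ F j}) M = 1 ∨
      2 * Module.finrank (IntermediateField.adjoin L {z : M | ∃ j, j ∉ Q ∧ z ∈ F j}) M ≤
        1 + ∑ j ∈ Q, c j) :
    ImageGe k L (∑ i, d i) (fun _ => False) 1 (∑ i, a i) ∧
      NumLe k L (∑ i, d i) (fun _ => False) (∑ i, a i) := by
  have hessM : Algebra.EssFiniteType k M := ess_supW F hsup
  have hessL : Algebra.EssFiniteType k L := ess_below (K := M)
  refine ⟨imageV (L := L) F hM (alg_of_sup' F hsup) hd (m := fun i => c i + 1)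
    (fun i => Nat.le_add_left 1 _) (fun i => (hg i).sep) (fun i => (hg i).img) B hB
    fun Q hQB => ?_, num_dom F hd hM hsup fun i => (hg i).num⟩
  have h3 : ∑ j ∈ Q, (c j + 1 - 1) = ∑ j ∈ Q, c j :=
    Finset.sum_congr rfl fun j _ => Nat.add_sub_cancel _ _
  rw [h3]
  exact hQ Q hQB

/-- the compositum of the factors of general type -/
def gtP (F : Fin s → IntermediateField k M) (d a : Fin s → ℕ) : IntermediateField k M :=
  ⨆ i : {i : Fin s // a i = d i}, F i.1

/-- **The Iitaka fibration.** -/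
theorem coreP (hd : ∀ i, Algebra.trdeg k (F i) = d i)
    (hM : Algebra.trdeg k M = (∑ i, d i : ℕ)) (hsup : ⨆ i, F i = ⊤) {c a : Fin s → ℕ}
    (hg : ∀ i, Gfac k (F i) (d i) (c i) (a i))
    (hac : ∀ i, a i = d i ∨ (a i = 0 ∧ c i = 0))
    (B : Finset (Fin s))
    (hB : ∀ i ∈ B, 2 * Module.finrank L (IntermediateField.adjoin L (F i : Set M)) ≤ c i + 1)
    (hQ : ∀ Q : Finset (Fin s), Disjoint Q B →
      Module.finrank (IntermediateField.adjoin L {z : M | ∃ j, j ∉ Q ∧ z ∈ F j}) M = 1 ∨
      2 * Module.finrank (IntermediateField.adjoin L {z : M | ∃ j, j ∉ Q ∧ z ∈ F j}) M ≤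
        1 + ∑ j ∈ Q, c j) :
    ∃ K : IntermediateField k L, (∀ x : L, IsAlgebraic K x → x ∈ K) ∧
      Algebra.EssFiniteType k K ∧ Algebra.trdeg k K = (∑ i, a i : ℕ) ∧
      ImageGe k K (∑ i, a i) (fun _ => False) 1 (∑ i, a i) ∧
      (∀ (q : ℕ) (ω ω' : (Fin (∑ i, d i) → Derivation k L L) → L),
        IsSec k L (∑ i, d i) (fun _ => False) {1} q 0 ω →
        IsSec k L (∑ i, d i) (fun _ => False) {1} q 0 ω' → ∀ G, ω G ≠ 0 → ω' G / ω G ∈ K) ∧
      (∀ x : L, x ∈ K ↔ algebraMap L M x ∈ gtP F d a) ∧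
      Algebra.trdeg k (gtP F d a) = (∑ i, a i : ℕ) ∧
      IntermediateField.adjoin L (gtP F d a : Set M) = ⊤ ∧
      (Pool.Agent.W602.GT.Special k L (∑ i, d i) (fun _ => False) →
        (∀ i, a i = 0) ∧ Function.Bijective (algebraMap L M)) := by
  classical
  have hessM : Algebra.EssFiniteType k M := ess_supW F hsup
  have hessL : Algebra.EssFiniteType k L := ess_below (K := M)
  have hnL : Algebra.trdeg k L = (∑ i, d i : ℕ) := trdeg_below (K := M) hM
  let S : Finset (Fin s) := Finset.univ.filter fun i => a i = d i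
  have hSi : ∀ i, i ∈ S ↔ a i = d i := fun i => by simp [S]
  have haS : ∀ i ∈ S, a i = d i := fun i hi => (hSi i).1 hi
  have haS' : ∀ i, i ∉ S → a i = 0 := fun i hi =>
    ((hac i).resolve_left fun h => hi ((hSi i).2 h)).1
  have hcS : ∀ i, i ∉ S → c i = 0 := fun i hi =>
    ((hac i).resolve_left fun h => hi ((hSi i).2 h)).2
  have hnumM := num_prod F hd hM hsup fun i => (hg i).num
  have h1 := coreV (L := L) F hM hsup hd
    (m := fun i => c i + 1) (fun i => Nat.le_add_left 1 _) (fun i => (hg i).sep) (a := a)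
    (fun i => (hg i).img) S haS haS' (fun i hi => by rw [hcS i hi]) hnumM
    B hB (fun Q hQB => by
      have h3 : ∑ j ∈ Q, (c j + 1 - 1) = ∑ j ∈ Q, c j :=
        Finset.sum_congr rfl fun j _ => Nat.add_sub_cancel _ _
      rw [h3]
      exact hQ Q hQB)
  obtain ⟨h2, h3, h4, h6⟩ := h1
  have hsaS : ∑ i, a i = ∑ j ∈ S, d j := by
    rw [← Finset.sum_subset (Finset.subset_univ S) (fun i _ hi => haS' i hi)]
    exact Finset.sum_congr rfl fun i hi => haS i hi
  have htN : Algebra.trdeg k (part F S) = (∑ i, a i : ℕ) := by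
    rw [hsaS]
    exact part_trdeg F hd hM hsup S
  have hpart : part F S = gtP F d a := by
    apply le_antisymm
    · refine iSup_le fun i => ?_
      exact le_iSup (fun i : {i : Fin s // a i = d i} => F i.1) ⟨i.1, (hSi i.1).1 i.2⟩
    · refine iSup_le fun i => ?_
      exact le_part F ((hSi i.1).2 i.2)
  refine ⟨iit F L S, h2, h3, h4, h6, fun q ω ω' hω hω' G hG => ?_, fun x => ?_, ?_, ?_,
    fun hsp => ?_⟩
  · exact ratio_mem F hM hsup hd (fun i => (hg i).img) S haS' hnumM hω hω' hG
  · rw [← hpart]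
    exact Iff.rfl
  · rw [← hpart]
    exact htN
  · -- the base change
    have hBS : Disjoint Sᶜ B := by
      rw [Finset.disjoint_left]
      intro i hi hiB
      have h2 := hB i hiB
      rw [hcS i (Finset.mem_compl.1 hi)] at h2
      have h3 : 0 < Module.finrank L (IntermediateField.adjoin L (F i : Set M)) :=
        Module.finrank_pos
      omega
    have h7 : ∑ j ∈ Sᶜ, c j = 0 :=
      Finset.sum_eq_zero fun j hj => hcS j (Finset.mem_compl.1 hj)
    have h8 := hQ Sᶜ hBS
    rw [h7] at h8
    have h9 : 0 < Module.finrank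
        (IntermediateField.adjoin L {z : M | ∃ j, j ∉ Sᶜ ∧ z ∈ F j}) M := Module.finrank_pos
    have h10 : Module.finrank
        (IntermediateField.adjoin L {z : M | ∃ j, j ∉ Sᶜ ∧ z ∈ F j}) M = 1 := by
      rcases h8 with h8 | h8
      · exact h8
      · omega
    rw [eq_top_iff, ← IntermediateField.finrank_eq_one_iff_eq_top.1 h10]
    refine IntermediateField.adjoin.mono _ _ _ ?_
    rintro z ⟨j, hj, hz⟩
    rw [← hpart]
    refine le_part F ?_ hz
    by_contra h
    exact hj (Finset.mem_compl.2 h)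
  · have h8 : ∑ i, a i = 0 := by
      by_contra h9
      exact not_special_of_sub (iit F L S) (w := ∑ i, d i) (p := ∑ i, a i)
        (Nat.pos_of_ne_zero h9) hnL h4 h6 hsp
    have h9 : ∀ i, a i = 0 := fun i => by
      have h10 := Finset.single_le_sum (f := a) (fun _ _ => Nat.zero_le _) (Finset.mem_univ i)
      omega
    refine ⟨h9, ?_⟩
    have hcd : ∀ i, d i ≠ 0 → c i = 0 := fun i hi => by
      rcases hac i with h10 | h10
      · rw [h9 i] at h10
        exact absurd h10.symm hi
      · exact h10.2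
    have hF0 : ∀ i, d i = 0 → F i = ⊥ := fun i hi => eq_bot_of_trdeg (F i) (by rw [hd i, hi])
    let Q : Finset (Fin s) := Finset.univ.filter fun i => d i ≠ 0
    have hQi : ∀ i, i ∈ Q ↔ d i ≠ 0 := fun i => by simp [Q]
    have hBQ : Disjoint Q B := by
      rw [Finset.disjoint_left]
      intro i hi hiB
      have h2 := hB i hiB
      rw [hcd i ((hQi i).1 hi)] at h2
      have h3 : 0 < Module.finrank L (IntermediateField.adjoin L (F i : Set M)) :=
        Module.finrank_pos
      omega
    have h13 := hQ Q hBQ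
    have h14 : IntermediateField.adjoin L {z : M | ∃ j, j ∉ Q ∧ z ∈ F j} = ⊥ := by
      rw [IntermediateField.adjoin_eq_bot_iff]
      rintro z ⟨j, hj, hz⟩
      have hj0 : d j = 0 := by
        by_contra hj0
        exact hj ((hQi j).2 hj0)
      rw [hF0 j hj0] at hz
      obtain ⟨r, rfl⟩ := IntermediateField.mem_bot.1 hz
      rw [SetLike.mem_coe, IntermediateField.mem_bot]
      exact ⟨algebraMap k L r, (IsScalarTower.algebraMap_apply k L M r).symm⟩
    have h15 : ∑ j ∈ Q, c j = 0 :=
      Finset.sum_eq_zero fun j hj => hcd j ((hQi j).1 hj)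
    rw [h14, IntermediateField.finrank_bot', h15] at h13
    have h16 : 0 < Module.finrank L M := Module.finrank_pos
    have h12 : Module.finrank L M = 1 := by
      rcases h13 with h13 | h13
      · exact h13
      · omega
    have h13 : (⊥ : IntermediateField L M) = ⊤ :=
      IntermediateField.finrank_eq_one_iff_eq_top.1 (by
        rw [IntermediateField.finrank_bot', h12])
    refine ⟨(algebraMap L M).injective, fun x => ?_⟩
    have h14 : x ∈ (⊥ : IntermediateField L M) := by
      rw [h13]
      exact IntermediateField.mem_top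
    exact IntermediateField.mem_bot.1 h14

end

end Q36.GP
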