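import Mathlib

/-!
Decomposition of the elements of a base change of a finite separable extension.
-/

set_option autoImplicit false
set_option linter.overlappingInstances false
set_option linter.unusedSectionVars false

open IntermediateField

namespace Q36.GP

section

variable {k0 B K0 M : Type} [Field k0] [Field B] [Field K0] [Field M] [Algebra k0 B]
  [Algebra k0 K0] [Algebra B M] [Algebra K0 M] [Algebra k0 M] [IsScalarTower k0 B M]
  [IsScalarTower k0 K0 M] [FiniteDimensional k0 B] [Algebra.IsSeparable k0 B]

/-- **Dual families.** -/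
theorem decomp (hspan : Submodule.span K0 (Set.range (algebraMap B M)) = ⊤)
    (hfin : Module.finrank K0 M = Module.finrank k0 B) :
    FiniteDimensional K0 M ∧ ∃ (r : ℕ) (e e' : Fin r → B), ∀ z : M,
      z = ∑ i, algebraMap K0 M (Algebra.trace K0 M (z * algebraMap B M (e' i))) *
        algebraMap B M (e i) := by
  classical
  let b : Module.Basis (Fin (Module.finrank k0 B)) k0 B := Module.finBasis k0 B
  have hspan2 : ⊤ ≤ Submodule.span K0 (Set.range fun i => algebraMap B M (b i)) := by
    rw [← hspan, Submodule.span_le]
    rintro _ ⟨x, rfl⟩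
    rw [← b.sum_repr x, map_sum]
    refine Submodule.sum_mem _ fun i _ => ?_
    rw [Algebra.smul_def, map_mul, ← IsScalarTower.algebraMap_apply k0 B M,
      IsScalarTower.algebraMap_apply k0 K0 M, ← Algebra.smul_def]
    exact Submodule.smul_mem _ _ (Submodule.subset_span ⟨i, rfl⟩)
  have hpos : 0 < Module.finrank K0 M := by
    rw [hfin]
    exact Module.finrank_pos
  have hF : FiniteDimensional K0 M := Module.finite_of_finrank_pos hpos
  let b' : Module.Basis (Fin (Module.finrank k0 B)) K0 M :=
    basisOfTopLeSpanOfCardEqFinrank (fun i => algebraMap B M (b i)) hspan2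
      (by rw [hfin, Fintype.card_fin])
  have hb' : ∀ i, b' i = algebraMap B M (b i) := fun i => by
    simp [b']
  have hrepr : ∀ (x : B) i, b'.repr (algebraMap B M x) i = algebraMap k0 K0 (b.repr x i) := by
    intro x i
    have h1 : algebraMap B M x = ∑ j, algebraMap k0 K0 (b.repr x j) • b' j := by
      conv_lhs => rw [← b.sum_repr x, map_sum]
      refine Finset.sum_congr rfl fun j _ => ?_
      rw [hb', Algebra.smul_def, Algebra.smul_def, map_mul, ← IsScalarTower.algebraMap_apply k0 B M,
        IsScalarTower.algebraMap_apply k0 K0 M]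
    rw [h1, b'.repr_sum_self]
  have htr : ∀ x : B, Algebra.trace K0 M (algebraMap B M x) =
      algebraMap k0 K0 (Algebra.trace k0 B x) := by
    intro x
    rw [Algebra.trace_eq_matrix_trace b', Algebra.trace_eq_matrix_trace b, Matrix.trace,
      Matrix.trace, map_sum]
    refine Finset.sum_congr rfl fun i _ => ?_
    rw [Matrix.diag_apply, Matrix.diag_apply, Algebra.leftMulMatrix_eq_repr_mul,
      Algebra.leftMulMatrix_eq_repr_mul, hb', ← map_mul, hrepr]
  let d := (Algebra.traceForm k0 B).dualBasis (traceForm_nondegenerate k0 B) b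
  have hd : ∀ i j, Algebra.trace k0 B (b j * d i) = if j = i then 1 else 0 := by
    intro i j
    have h1 := LinearMap.BilinForm.apply_dualBasis_left (B := Algebra.traceForm k0 B)
      (traceForm_nondegenerate k0 B) b i j
    rw [Algebra.traceForm_apply, mul_comm] at h1
    exact h1
  refine ⟨hF, _, b, d, fun z => ?_⟩
  have hc : ∀ i, Algebra.trace K0 M (z * algebraMap B M (d i)) = b'.repr z i := by
    intro i
    conv_lhs => rw [← b'.sum_repr z, Finset.sum_mul, map_sum]
    rw [Finset.sum_eq_single i]
    · rw [smul_mul_assoc, map_smul, hb', ← map_mul, htr, hd, if_pos rfl, map_one, smul_eq_mul,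
        mul_one]
    · intro j _ hj
      rw [smul_mul_assoc, map_smul, hb', ← map_mul, htr, hd, if_neg hj, map_zero, smul_zero]
    · intro h
      exact absurd (Finset.mem_univ i) h
  conv_lhs => rw [← b'.sum_repr z]
  refine Finset.sum_congr rfl fun i _ => ?_
  rw [hc, hb', Algebra.smul_def]

end

end Q36.GP
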