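import Pool.Agent.Q36.GP.Gd
import Pool.Agent.W589.PG.DESCJB

/-!
The coefficients of a section on a product are sections on the factor.
-/

set_option autoImplicit false
set_option linter.overlappingInstances false
set_option linter.unusedSectionVars false

open FF IntermediateField Pool.Agent.W619.PQ Pool.Agent.W619.PL Pool.Agent.W619.TW
  Pool.Agent.W603.LV

namespace Q36.GP

section

variable {k M : Type} [Field k] [Field M] [Algebra k M] [CharZero k] [IsAlgClosed k]
  {A B : IntermediateField k M}

/-- the Gauss extension, for arbitrary finite families -/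
theorem UU_fam' (h : Pr A B) (u : Place k A) {ι : Type} (s : Finset ι) (β : ι → B) (μ : ι → A)
    (c : ℤ) (hβ : LinearIndependent k β)
    (hz : Ge (UU h u) c (∑ i ∈ s, (β i : M) * (μ i : M))) : ∀ i ∈ s, Ge u c (μ i) := by
  intro i hi
  have h1 := UU_fam h u s.card (fun i => β (s.equivFin.symm i)) (fun i => μ (s.equivFin.symm i)) c
    (hβ.comp (fun i => ((s.equivFin.symm i : s) : ι)) (by
      intro i j h
      exact s.equivFin.symm.injective (Subtype.ext h))) (by
    have h2 : ∑ i : Fin s.card, ((β (s.equivFin.symm i) : B) : M) *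
        ((μ (s.equivFin.symm i) : A) : M) = ∑ i ∈ s, (β i : M) * (μ i : M) := by
      rw [← Finset.sum_coe_sort s]
      exact Equiv.sum_comp s.equivFin.symm (fun i : s => ((β i : B) : M) * ((μ i : A) : M))
    rw [h2]
    exact hz) (s.equivFin ⟨i, hi⟩)
  simpa using h1

/-- **The Gauss extension is divisorial.** -/
theorem UU_divG (h : Pr A B) (u : Place k A) {p q : ℕ} (hp : Algebra.trdeg k A = p)
    (y : Fin q → B) (hy : AlgebraicIndependent k y) (hu : IsDivisorial u p) :
    IsDivisorial (UU h u) (p + q) := by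
  classical
  have hp0 : 0 < p := by
    rcases Nat.eq_zero_or_pos p with rfl | hp0
    · exfalso
      obtain ⟨s, hs0, hs⟩ := u.surj
      have h1 : Transcendental k s := u.transcendental_of_ord_ne (by omega)
      have h2 : Algebra.IsAlgebraic k A := by
        rw [← _root_.trdeg_eq_zero_iff, hp, Nat.cast_zero]
      exact h1 (h2.isAlgebraic s)
    · exact hp0
  obtain ⟨x, hx⟩ := hu
  refine div_of_family (ι := Fin q ⊕ Fin (p - 1)) ?_
    (Sum.elim (fun j => (y j : M)) (fun i => (x i : M))) fun G hG => ?_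
  · rw [Fintype.card_sum, Fintype.card_fin, Fintype.card_fin]
    omega
  · set G1 := MvPolynomial.sumAlgEquiv k (Fin q) (Fin (p - 1)) G with hG1
    have h1 : G1 ≠ 0 := fun h0 => hG ((MvPolynomial.sumAlgEquiv k _ _).injective (by
      rw [map_zero]; exact h0))
    have h5 : MvPolynomial.aeval (Sum.elim (fun j => (y j : M)) (fun i => (x i : M))) G =
        ∑ α ∈ G1.support, ((MvPolynomial.aeval y (MvPolynomial.monomial α (1 : k)) : B) : M) *
          ((MvPolynomial.aeval x (MvPolynomial.coeff α G1) : A) : M) := by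
      let φ : MvPolynomial (Fin (p - 1)) k →ₐ[k] A := MvPolynomial.aeval x
      let Ψ : MvPolynomial (Fin q ⊕ Fin (p - 1)) k →ₐ[k] M :=
        ((MvPolynomial.aeval (R := A) (fun j => (y j : M))).restrictScalars k).comp
        ((MvPolynomial.mapAlgHom φ).comp (MvPolynomial.sumAlgEquiv k _ _).toAlgHom)
      have h6 : MvPolynomial.aeval (Sum.elim (fun j => (y j : M)) (fun i => (x i : M))) = Ψ := by
        refine MvPolynomial.algHom_ext fun i => ?_
        rcases i with j | i
        · rw [MvPolynomial.aeval_X]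
          simp [Ψ]
        · rw [MvPolynomial.aeval_X]
          simp [Ψ, φ]
      rw [h6]
      change MvPolynomial.aeval (R := A) (fun j => (y j : M)) (MvPolynomial.map φ.toRingHom G1) = _
      conv_lhs => rw [MvPolynomial.as_sum G1, map_sum, map_sum]
      refine Finset.sum_congr rfl fun α _ => ?_
      rw [MvPolynomial.map_monomial, MvPolynomial.aeval_monomial, mul_comm,
        ← aeval_map (A := A), MvPolynomial.map_monomial, MvPolynomial.aeval_monomial, map_one,
        map_one, one_mul]
      rfl
    have hind : LinearIndependent k fun α : Fin q →₀ ℕ =>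
        MvPolynomial.aeval y (MvPolynomial.monomial α (1 : k)) := by
      have h2 := (MvPolynomial.basisMonomials (Fin q) k).linearIndependent.map'
        (MvPolynomial.aeval (R := k) y).toLinearMap (LinearMap.ker_eq_bot.2 hy)
      have h3 : (MvPolynomial.aeval (R := k) y).toLinearMap ∘
          (MvPolynomial.basisMonomials (Fin q) k) = fun α : Fin q →₀ ℕ =>
          MvPolynomial.aeval y (MvPolynomial.monomial α (1 : k)) := by
        funext α
        simp
      rw [← h3]
      exact h2
    have hge : Ge (UU h u) 0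
        (MvPolynomial.aeval (Sum.elim (fun j => (y j : M)) (fun i => (x i : M))) G) := by
      rw [h5]
      refine Ge.sum _ _ fun α hα => ?_
      have h2 : Ge (UU h u) 0 ((MvPolynomial.aeval y (MvPolynomial.monomial α (1 : k)) : B) : M) :=
        Or.inr (UU_F h u _).ge
      have h3 : Ge (UU h u) 0 ((MvPolynomial.aeval x (MvPolynomial.coeff α G1) : A) : M) := by
        right
        rw [UU_M]
        exact (hx _ (MvPolynomial.mem_support_iff.1 hα)).2.ge
      have h4 := h2.mul h3
      rwa [add_zero] at h4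
    have hnge : ¬ Ge (UU h u) 1
        (MvPolynomial.aeval (Sum.elim (fun j => (y j : M)) (fun i => (x i : M))) G) := by
      intro hc
      rw [h5] at hc
      obtain ⟨α, hα⟩ := MvPolynomial.support_nonempty.2 h1
      have h2 := UU_fam' h u G1.support _ _ 1 hind hc α hα
      obtain ⟨h3, h4⟩ := hx _ (MvPolynomial.mem_support_iff.1 hα)
      rcases h2 with h2 | h2
      · exact h3 h2
      · omega
    refine ⟨fun h0 => hnge (Or.inl h0), ?_⟩
    rcases hge with h2 | h2
    · exact absurd (Or.inl h2) hnge
    · by_contra h3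
      exact hnge (Or.inr (by omega))

end

section

open Pool.Agent.W735.PG.DESCJ (der_sum)
open Pool.Agent.W619.Y (BdTwo)

variable {k M : Type} [Field k] [Field M] [Algebra k M] [CharZero k] [IsAlgClosed k]
  {A B : IntermediateField k M} {p q n : ℕ}

/-- **The coefficients of a section are sections.** -/
theorem desc (h : Pr A B) (hp : Algebra.trdeg k A = p) (BA : Place k A → Prop)
    (BB : Place k B → Prop) (x : Fin p → A) (hx : IsTranscendenceBasis k x)
    (y : Fin q → B) (hy : AlgebraicIndependent k y) (ε : Fin p ⊕ Fin q ≃ Fin n)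
    (E : Fin n → Derivation k M M) (hE1 : ∀ i (β : B), E (ε (Sum.inl i)) (β : M) = 0)
    (hE2 : ∀ i j, E (ε (Sum.inl i)) (x j : M) = if i = j then 1 else 0)
    (hE3 : ∀ i (α : A), E (ε (Sum.inr i)) (α : M) = 0)
    (hE4 : ∀ i (β : B), ∃ β' : B, E (ε (Sum.inr i)) (β : M) = (β' : M))
    (S : Finset M) (b0 : M) (hb0 : b0 ≠ 0) : ∃ S' : Finset A, ∀ (m j : ℕ)
      (ω : (Fin n → Derivation k M M) → M), IsSec k M n (BdTwo A B BA BB) S m j ω →
      ∀ (r : ℕ) (β : Fin r → B) (μ : Fin r → A), LinearIndependent k β →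
        b0 ^ j * ω E = ∑ i, (β i : M) * (μ i : M) →
        ∀ i, IsSec k A p BA S' m j
          (fun D => μ i * (Matrix.of fun a b => D a (x b)).det ^ m) := by
  classical
  have hn : n = p + q := by
    have := Fintype.card_congr ε
    rw [Fintype.card_sum, Fintype.card_fin, Fintype.card_fin, Fintype.card_fin] at this
    exact this.symm
  have hT : ∀ s : M, s ≠ 0 → ∃ T : Finset A, ∀ (u : Place k A) (U : Place k M),
      (∀ μ : A, U.ord (μ : M) = u.ord μ) → (∀ β : B, U.ord (β : M) = 0) →
      (∀ (r : ℕ) (β : Fin r → B) (μ : Fin r → A) (c : ℤ), LinearIndependent k β →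
        Ge U c (∑ i, (β i : M) * (μ i : M)) → ∀ i, Ge u c (μ i)) →
      ∃ s' ∈ T, s' ≠ 0 ∧ u.ord s' ≤ U.ord (b0 * s) :=
    fun s hs => Pool.Agent.W735.PG.DESCJ.exists_low h.sup (mul_ne_zero hb0 hs)
  choose! T hT using hT
  refine ⟨S.biUnion T, ?_⟩
  intro m j ω hω r β μ hβ hsum i
  -- the frame
  let fr : (Fin p → Derivation k A A) → Fin n → Derivation k M M := fun D a =>
    Sum.elim (fun l => ∑ b, ((D l (x b) : A) : M) • E (ε (Sum.inl b)))
      (fun l => E (ε (Sum.inr l))) (ε.symm a)
  -- the common part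
  have common : ∀ (u : Place k A) (U : Place k M), (∀ μ : A, U.ord (μ : M) = u.ord μ) →
      (∀ β : B, U.ord (β : M) = 0) →
      (∀ (r : ℕ) (β : Fin r → B) (μ : Fin r → A) (c : ℤ), LinearIndependent k β →
        Ge U c (∑ i, (β i : M) * (μ i : M)) → ∀ i, Ge u c (μ i)) →
      ∀ D : Fin p → Derivation k A A, Dom U S j (ω (fr D)) →
      Dom u (S.biUnion T) j (μ i * (Matrix.of fun a b => D a (x b)).det ^ m) := by
    intro u U hU1 hU2 hU3 D hdom
    let N0 : Matrix (Fin p ⊕ Fin q) (Fin p ⊕ Fin q) M :=
      Matrix.fromBlocks (Matrix.of fun a b => ((D a (x b) : A) : M)) 0 0 1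
    let N : Matrix (Fin n) (Fin n) M := Matrix.reindex ε ε N0
    have hN : (fun a => ∑ c, N a c • E c) = fr D := by
      funext a
      have h1 : ∑ c, N a c • E c = ∑ c', N0 (ε.symm a) c' • E (ε c') := by
        rw [← Equiv.sum_comp ε]
        refine Finset.sum_congr rfl fun c' _ => ?_
        change N0 (ε.symm a) (ε.symm (ε c')) • _ = _
        rw [Equiv.symm_apply_apply]
      rw [h1]
      change _ = Sum.elim _ _ (ε.symm a)
      rcases ε.symm a with l | l
      · rw [Fintype.sum_sum_type]
        simp [N0]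
      · rw [Fintype.sum_sum_type]
        simp [N0, Matrix.one_apply, ite_smul]
    have hdet : N.det = (((Matrix.of fun a b => D a (x b)).det : A) : M) := by
      rw [Matrix.det_reindex_self, Matrix.det_fromBlocks_zero₂₁, Matrix.det_one, mul_one]
      have h6 := (algebraMap A M).map_det (Matrix.of fun a b => D a (x b))
      have h7 : (Matrix.of fun a b => ((D a (x b) : A) : M)) =
          (algebraMap A M).mapMatrix (Matrix.of fun a b => D a (x b)) := by
        ext a b
        rfl
      rw [h7, ← h6]
      rfl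
    have hωD : ω (fr D) = (((Matrix.of fun a b => D a (x b)).det : A) : M) ^ m * ω E := by
      rw [← hdet, ← hω.1 N E, hN]
    -- multiply by `b0 ^ j`
    set δ : A := (Matrix.of fun a b => D a (x b)).det with hδ
    have hexp : b0 ^ j * ω (fr D) = ∑ i, (β i : M) * ((μ i * δ ^ m : A) : M) := by
      rw [hωD]
      calc b0 ^ j * ((δ : M) ^ m * ω E) = (δ : M) ^ m * (b0 ^ j * ω E) := by ring
        _ = _ := by
          rw [hsum, Finset.mul_sum]
          refine Finset.sum_congr rfl fun i _ => ?_
          push_cast; ring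
    rcases hdom with h0 | ⟨s, hs, hs0, hsU⟩
    · left
      by_contra hne
      have h9 := hU3 r β (fun i => μ i * δ ^ m) (u.ord (μ i * δ ^ m) + 1) hβ
        (by rw [← hexp, h0, mul_zero]; exact Ge.zero) i
      have := h9.resolve_left hne
      omega
    · obtain ⟨s', hs', hs'0, hle⟩ := hT s hs0 u U hU1 hU2 hU3
      have h9 : Ge U ((j : ℤ) * u.ord s') (b0 ^ j * ω (fr D)) := by
        have h10 : Ge U ((j : ℤ) * U.ord s) (ω (fr D)) := Or.inr hsU
        have h11 : Ge U ((j : ℤ) * U.ord b0) (b0 ^ j) := Or.inr (by rw [U.ord_pow])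
        refine (h11.mul h10).mono ?_
        rw [U.ord_mul hb0 hs0] at hle
        rw [← mul_add]
        exact mul_le_mul_of_nonneg_left hle (by positivity)
      rw [hexp] at h9
      rcases hU3 r β (fun i => μ i * δ ^ m) _ hβ h9 i with h12 | h12
      · left; exact h12
      · right
        exact ⟨s', Finset.mem_biUnion.2 ⟨s, hs, hs'⟩, hs'0, h12⟩
  -- facts on the derivations of `M`
  have hxA : ∀ (D : Fin p → Derivation k A A) (l : Fin p) (z : A),
      (∑ b, ((D l (x b) : A) : M) • E (ε (Sum.inl b))) (z : M) = ((D l z : A) : M) := by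
    intro D l z
    refine der_comp (K := A) (L := M) (D l) (∑ b, ((D l (x b) : A) : M) • E (ε (Sum.inl b))) x hx
      (fun c => ?_) z
    show (∑ b, ((D l (x b) : A) : M) • E (ε (Sum.inl b))) ((x c : A) : M) = ((D l (x c) : A) : M)
    rw [der_sum]
    simp only [hE2]
    simp
  have hBl : ∀ (D : Fin p → Derivation k A A) (l : Fin p) (β : B), ∃ β' : B,
      (∑ b, ((D l (x b) : A) : M) • E (ε (Sum.inl b))) (β : M) = (β' : M) := by
    intro D l β
    refine ⟨0, ?_⟩
    rw [der_sum]
    simp [hE1]
  have hUf : ∀ (u : Place k A) (r : ℕ) (β : Fin r → B) (μ : Fin r → A) (c : ℤ),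
      LinearIndependent k β → Ge (UU h u) c (∑ i, (β i : M) * (μ i : M)) → ∀ i, Ge u c (μ i) :=
    fun u r β μ c hβ hz => UU_fam h u r β μ c hβ hz
  refine ⟨?_, ?_, ?_⟩
  · intro N D
    have h2 : (Matrix.of fun a b => (∑ c, N a c • D c) (x b)) =
        N * Matrix.of fun a b => D a (x b) := by
      ext a b
      rw [Matrix.of_apply, Matrix.mul_apply]
      simp only [Matrix.of_apply]
      congr 1
      exact der_sum (L := A) _ _ _ _
    show μ i * (Matrix.of fun a b => (∑ c, N a c • D c) (x b)).det ^ m = _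
    rw [h2, Matrix.det_mul]
    ring
  · intro u hu hBA D hD
    have hov : Over (UU h u) u 1 :=
      ⟨Nat.one_pos, fun f => by rw [Nat.cast_one, one_mul]; exact UU_M h u f⟩
    have hnb : ¬ BdTwo A B BA BB (UU h u) := by
      rintro (⟨u', e, ho, hb⟩ | ⟨w, e, ho, -⟩)
      · have h5 := (over_unique' hov ho).1
        exact hBA (h5 ▸ hb)
      · obtain ⟨s, -, hs1⟩ := w.surj
        have h5 := ho.2 s
        have h6 : (UU h u).ord (algebraMap B M s) = 0 := UU_F h u s
        rw [h6, hs1, mul_one] at h5
        have := ho.1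
        omega
    have hpres : ∀ a, Pres (UU h u) (fr D a) := by
      intro a
      change Pres (UU h u) (Sum.elim _ _ (ε.symm a))
      rcases ε.symm a with l | l
      · exact UU_pres h u _ (fun z hz => ⟨D l z, hxA D l z, hD l z hz⟩) (fun β => hBl D l β)
      · refine UU_pres h u _ (fun z _ => ⟨0, ?_, u.reg_zero⟩) (fun β => hE4 l β)
        show E (ε (Sum.inr l)) (z : M) = _
        rw [hE3]; rfl
    have hdiv := UU_divG h u hp y hy hu
    rw [← hn] at hdiv
    exact common u _ (UU_M h u) (UU_F h u) (hUf u) D (hω.2.1 _ hdiv hnb _ hpres)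
  · intro u hu hBA D hD
    have hov : Over (UU h u) u 1 :=
      ⟨Nat.one_pos, fun f => by rw [Nat.cast_one, one_mul]; exact UU_M h u f⟩
    have hb : BdTwo A B BA BB (UU h u) := Or.inl ⟨u, 1, hov, hBA⟩
    have hlog : ∀ a, ∀ z : M, (UU h u).Reg (fr D a z / z) := by
      intro a
      change ∀ z : M, (UU h u).Reg ((Sum.elim
        (fun l => ∑ b, ((D l (x b) : A) : M) • E (ε (Sum.inl b)))
        (fun l => E (ε (Sum.inr l))) (ε.symm a) : Derivation k M M) z / z)
      rcases ε.symm a with l | l
      · exact UU_log h u _ (fun z => ⟨D l z, hxA D l z, hD l z⟩) (fun β => hBl D l β)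
      · refine UU_log h u _ (fun z => ⟨0, ?_, ?_⟩) (fun β => hE4 l β)
        · show E (ε (Sum.inr l)) (z : M) = _
          rw [hE3]; rfl
        · rw [zero_div]
          exact u.reg_zero
    have hdiv := UU_divG h u hp y hy hu
    rw [← hn] at hdiv
    exact common u _ (UU_M h u) (UU_F h u) (hUf u) D (hω.2.2 _ hdiv hb _ hlog)

end

end Q36.GP
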