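import Pool.Agent.Q36.GP.Mp

/-!
Varieties dominated by a product of varieties: numerical dimension, pseudo-effectivity.
-/

set_option autoImplicit false
set_option linter.overlappingInstances false
set_option linter.unusedSectionVars false

open Polynomial FF IsDedekindDomain IntermediateField
open Pool.Agent.W602.GT Pool.Agent.W603.LV Pool.Agent.W619.PQ Pool.Agent.W619.PL
  Pool.Agent.W619.TW Pool.Agent.W619.X Pool.Agent.W619.Y Q36.PT Q36.SD Q36.HB Q36.HL Q36.GV

namespace Q36.GP

section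

variable {k L M : Type} [Field k] [CharZero k] [IsAlgClosed k] [Field L] [Field M]
  [Algebra k L] [Algebra k M] [Algebra L M] [IsScalarTower k L M] [FiniteDimensional L M]
  {s : ℕ} {d : Fin s → ℕ} (F : Fin s → IntermediateField k M)
  [hess : ∀ i, Algebra.EssFiniteType k (F i)]

theorem part_compl (hd : ∀ i, Algebra.trdeg k (F i) = d i)
    (hM : Algebra.trdeg k M = (∑ i, d i : ℕ)) (hsup : ⨆ i, F i = ⊤) (i : Fin s) :
    F i ⊔ part F (Finset.univ.erase i) = ⊤ ∧
      d i + ∑ j ∈ Finset.univ.erase i, d j = ∑ j, d j := by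
  classical
  refine ⟨?_, Finset.add_sum_erase _ _ (Finset.mem_univ i)⟩
  rw [eq_top_iff, ← hsup]
  refine iSup_le fun j => ?_
  by_cases hj : j = i
  · rw [hj]
    exact le_sup_left
  · exact (le_part F (Finset.mem_erase.2 ⟨hj, Finset.mem_univ j⟩)).trans le_sup_right

/-- **Pseudo-effectivity of a product.** -/
theorem psef_prod (hd : ∀ i, Algebra.trdeg k (F i) = d i)
    (hM : Algebra.trdeg k M = (∑ i, d i : ℕ)) (hsup : ⨆ i, F i = ⊤)
    (h : IsPsef k M (∑ i, d i) (fun _ => False)) (i : Fin s) :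
    IsPsef k (F i) (d i) (fun _ => False) := by
  classical
  obtain ⟨h1, h2⟩ := part_compl F hd hM hsup i
  have hess1 : Algebra.EssFiniteType k (part F (Finset.univ.erase i)) := part_ess F _
  rw [← h2, ← bdTwo_false (A := F i) (B := part F (Finset.univ.erase i))] at h
  exact (psef_two (F i) (part F (Finset.univ.erase i)) (hd i) (part_trdeg F hd hM hsup _)
    (by rw [h2]; exact hM) h1 _ _ h).1

/-- **Numerical dimension `-∞` of a product.** -/
theorem neg_prod (hd : ∀ i, Algebra.trdeg k (F i) = d i)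
    (hM : Algebra.trdeg k M = (∑ i, d i : ℕ)) (hsup : ⨆ i, F i = ⊤)
    (h : ∃ i, NumNeg k (F i) (d i) (fun _ => False)) :
    NumNeg k M (∑ i, d i) (fun _ => False) := by
  classical
  obtain ⟨i, hi⟩ := h
  obtain ⟨h1, h2⟩ := part_compl F hd hM hsup i
  have hess1 : Algebra.EssFiniteType k (part F (Finset.univ.erase i)) := part_ess F _
  rw [← h2, ← bdTwo_false (A := F i) (B := part F (Finset.univ.erase i))]
  exact neg_two (F i) (part F (Finset.univ.erase i)) (hd i) (part_trdeg F hd hM hsup _)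
    (by rw [h2]; exact hM) h1 _ _ (Or.inl hi)

theorem dom_all (hd : ∀ i, Algebra.trdeg k (F i) = d i)
    (hM : Algebra.trdeg k M = (∑ i, d i : ℕ)) (hsup : ⨆ i, F i = ⊤) :
    (IsPsef k L (∑ i, d i) (fun _ => False) → IsPsef k M (∑ i, d i) (fun _ => False)) ∧
    (NumNeg k M (∑ i, d i) (fun _ => False) → NumNeg k L (∑ i, d i) (fun _ => False)) ∧
    ∀ a, NumLe k M (∑ i, d i) (fun _ => False) a →
      NumLe k L (∑ i, d i) (fun _ => False) a := by
  have hessM : Algebra.EssFiniteType k M := ess_supW F hsup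
  have hessL : Algebra.EssFiniteType k L := ess_below (K := M)
  have hn : Algebra.trdeg k L = (∑ i, d i : ℕ) := trdeg_below (K := M) hM
  have h := pTRANS k L M (∑ i, d i) hn (fun y hy => fin_over y hy) (fun _ => False)
  rw [bdUp_false] at h
  exact h

/-- **Upper bound for the numerical dimension.** -/
theorem num_dom (hd : ∀ i, Algebra.trdeg k (F i) = d i)
    (hM : Algebra.trdeg k M = (∑ i, d i : ℕ)) (hsup : ⨆ i, F i = ⊤) {a : Fin s → ℕ}
    (ha : ∀ i, NumLe k (F i) (d i) (fun _ => False) (a i)) :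
    NumLe k L (∑ i, d i) (fun _ => False) (∑ i, a i) :=
  (dom_all (L := L) F hd hM hsup).2.2 _ (num_prod F hd hM hsup ha)

theorem psef_dom (hd : ∀ i, Algebra.trdeg k (F i) = d i)
    (hM : Algebra.trdeg k M = (∑ i, d i : ℕ)) (hsup : ⨆ i, F i = ⊤)
    (h : IsPsef k L (∑ i, d i) (fun _ => False)) (i : Fin s) :
    IsPsef k (F i) (d i) (fun _ => False) :=
  psef_prod F hd hM hsup ((dom_all (L := L) F hd hM hsup).1 h) i

theorem neg_dom (hd : ∀ i, Algebra.trdeg k (F i) = d i)
    (hM : Algebra.trdeg k M = (∑ i, d i : ℕ)) (hsup : ⨆ i, F i = ⊤)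
    (h : ∃ i, NumNeg k (F i) (d i) (fun _ => False)) :
    NumNeg k L (∑ i, d i) (fun _ => False) :=
  (dom_all (L := L) F hd hM hsup).2.1 (neg_prod F hd hM hsup h)

end

end Q36.GP
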