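import Pool.Agent.Q36.GP.Hr
import Pool.Agent.Q36.GP.De
import Pool.Agent.Q36.GV.Cl

/-!
Products of two varieties: linear disjointness, frames.
-/

set_option autoImplicit false
set_option linter.overlappingInstances false
set_option linter.unusedSectionVars false

open FF IntermediateField Pool.Agent.W619.PQ Pool.Agent.W619.PL Pool.Agent.W619.TW
  Pool.Agent.W603.LV
open scoped TensorProduct

namespace Q36.GP

section

variable {k M : Type} [Field k] [IsAlgClosed k] [Field M] [Algebra k M]
  {A B : IntermediateField k M} {p q : ℕ}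

/-- **Linear disjointness from the dimensions.** -/
theorem pr_of_trdeg (hA : Algebra.trdeg k A = p) (hB : Algebra.trdeg k B = q)
    (hM : Algebra.trdeg k M = (p + q : ℕ)) (hsup : A ⊔ B = ⊤) : Pr A B := by
  refine ⟨fun {ι} β hβ => ?_, hsup⟩
  obtain ⟨s, hs⟩ := exists_isTranscendenceBasis k B
  have h1 := Pool.Agent.W904.PG.T2 (k := k) (P := A) (M := B) (L := M) B.val _ hs
    (Pool.Agent.W904.PG.indep B A q p hB (by rw [hM, add_comm]) hA.le
      (by rw [sup_comm]; exact hsup) s hs)
  have h2 : A.LinearDisjoint B := by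
    rw [linearDisjoint_iff', Subalgebra.linearDisjoint_iff_injective]
    intro u v huv
    apply h1
    have h3 : ∀ z : A ⊗[k] B, Algebra.TensorProduct.productLeftAlgHom (Algebra.ofId A M) B.val z =
        (A.toSubalgebra.mulMap B.toSubalgebra) z := by
      intro z
      induction z using TensorProduct.induction_on with
      | zero => rw [map_zero, map_zero]
      | tmul a b =>
        rw [Subalgebra.mulMap_tmul]
        simp [Algebra.ofId_apply]
      | add u v hu hv => rw [map_add, map_add, hu, hv]
    rw [h3, h3]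
    exact huv
  exact h2.linearIndependent_right hβ

theorem pr_symm (hA : Algebra.trdeg k A = p) (hB : Algebra.trdeg k B = q)
    (hM : Algebra.trdeg k M = (p + q : ℕ)) (hsup : A ⊔ B = ⊤) : Pr B A :=
  pr_of_trdeg hB hA (by rw [hM, add_comm]) (by rw [sup_comm]; exact hsup)

end

section

variable {k M : Type} [Field k] [Field M] [Algebra k M]
  {A B : IntermediateField k M} {q : ℕ}

theorem Pr.algInd (h : Pr A B) {y : Fin q → B} (hy : AlgebraicIndependent k y) :
    AlgebraicIndependent A fun j => (y j : M) := by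
  classical
  have hind : LinearIndependent k fun α : Fin q →₀ ℕ =>
      MvPolynomial.aeval y (MvPolynomial.monomial α (1 : k)) := by
    have h2 := (MvPolynomial.basisMonomials (Fin q) k).linearIndependent.map'
      (MvPolynomial.aeval (R := k) y).toLinearMap (LinearMap.ker_eq_bot.2 hy)
    have h3 : (MvPolynomial.aeval (R := k) y).toLinearMap ∘
        (MvPolynomial.basisMonomials (Fin q) k) = fun α : Fin q →₀ ℕ =>
        MvPolynomial.aeval y (MvPolynomial.monomial α (1 : k)) := by
      funext α
      simp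
    rw [← h3]
    exact h2
  have h1 := h.ld _ hind
  change Function.Injective _
  rw [injective_iff_map_eq_zero]
  intro r hr
  have h4 : ∑ α ∈ r.support, (MvPolynomial.coeff α r) •
      ((MvPolynomial.aeval y (MvPolynomial.monomial α (1 : k)) : B) : M) = 0 := by
    rw [← hr]
    conv_rhs => rw [MvPolynomial.as_sum r, map_sum]
    refine Finset.sum_congr rfl fun α _ => ?_
    rw [← aeval_map (A := A), MvPolynomial.map_monomial, MvPolynomial.aeval_monomial,
      MvPolynomial.aeval_monomial, map_one, map_one, one_mul, Algebra.smul_def]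
  refine MvPolynomial.ext _ _ fun α => ?_
  rw [MvPolynomial.coeff_zero]
  by_contra hne
  exact hne (linearIndependent_iff'.1 h1 _ _ h4 α (MvPolynomial.mem_support_iff.2 hne))

end

section

variable {k M : Type} [Field k] [CharZero k] [Field M] [Algebra k M]
  (A B : IntermediateField k M) (p q n : ℕ)

/-- Coordinates and vector fields adapted to a product. -/
structure Frm where
  x : Fin p → A
  hx : IsTranscendenceBasis k x
  y : Fin q → B
  hy : IsTranscendenceBasis k y
  ε : Fin p ⊕ Fin q ≃ Fin n
  E : Fin n → Derivation k M M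
  e1 : ∀ i (β : B), E (ε (Sum.inl i)) (β : M) = 0
  e2 : ∀ i j, E (ε (Sum.inl i)) (x j : M) = if i = j then 1 else 0
  e3 : ∀ i (α : A), ∃ α' : A, E (ε (Sum.inl i)) (α : M) = (α' : M)
  f1 : ∀ i (α : A), E (ε (Sum.inr i)) (α : M) = 0
  f2 : ∀ i j, E (ε (Sum.inr i)) (y j : M) = if i = j then 1 else 0
  f3 : ∀ i (β : B), ∃ β' : B, E (ε (Sum.inr i)) (β : M) = (β' : M)
  z : Fin n → M
  hz : IsTranscendenceBasis k z
  g : ∀ i j, E i (z j) = if i = j then 1 else 0

variable {A B p q n}

/-- the same frame, with the factors exchanged -/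
def Frm.swap (F : Frm A B p q n) : Frm B A q p n where
  x := F.y
  hx := F.hy
  y := F.x
  hy := F.hx
  ε := (Equiv.sumComm _ _).trans F.ε
  E := F.E
  e1 := F.f1
  e2 := F.f2
  e3 := F.f3
  f1 := F.e1
  f2 := F.e2
  f3 := F.e3
  z := F.z
  hz := F.hz
  g := F.g

/-- **Frames exist.** -/
theorem exists_frm (h : Pr A B) (hA : Algebra.trdeg k A = p) (hB : Algebra.trdeg k B = q)
    (hM : Algebra.trdeg k M = (p + q : ℕ)) (hn : p + q = n) : Nonempty (Frm A B p q n) := by
  classical
  subst hn
  obtain ⟨x, DA, hx, hDA⟩ := Pool.Agent.Y172.exists_crd hA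
  obtain ⟨y, DB, hy, hDB⟩ := Pool.Agent.Y172.exists_crd hB
  have hyA := h.algInd hy.1
  have h1 := AlgebraicIndependent.sumElim_comp hx.1 hyA
  let ε : Fin p ⊕ Fin q ≃ Fin (p + q) := finSumFinEquiv
  let z : Fin (p + q) → M := fun a => Sum.elim (fun i => (x i : M)) (fun j => (y j : M)) (ε.symm a)
  have hz : IsTranscendenceBasis k z := by
    have h2 : AlgebraicIndependent k z := by
      have h3 : z = (Sum.elim (fun j => (y j : M)) (algebraMap A M ∘ x)) ∘
          (ε.symm.trans (Equiv.sumComm _ _)) := by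
        funext a
        change Sum.elim _ _ (ε.symm a) = Sum.elim _ _ (Equiv.sumComm _ _ (ε.symm a))
        rcases ε.symm a with i | j <;> rfl
      rw [h3]
      exact h1.comp _ (Equiv.injective _)
    refine h2.isTranscendenceBasis_of_lift_trdeg_le ?_ ?_
    · rw [hM]
      exact Cardinal.natCast_lt_aleph0
    · rw [hM]
      simp
  choose E hE using fun i => exists_dual z hz i
  have hzl : ∀ i, z (ε (Sum.inl i)) = (x i : M) := fun i => by
    change Sum.elim _ _ (ε.symm (ε (Sum.inl i))) = _
    rw [Equiv.symm_apply_apply]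
    rfl
  have hzr : ∀ i, z (ε (Sum.inr i)) = (y i : M) := fun i => by
    change Sum.elim _ _ (ε.symm (ε (Sum.inr i))) = _
    rw [Equiv.symm_apply_apply]
    rfl
  have hll : ∀ i j, E (ε (Sum.inl i)) (x j : M) = if i = j then 1 else 0 := by
    intro i j
    rw [← hzl, hE]
    simp [eq_comm]
  have hlr : ∀ i j, E (ε (Sum.inl i)) (y j : M) = 0 := by
    intro i j
    rw [← hzr, hE]
    simp
  have hrl : ∀ i j, E (ε (Sum.inr i)) (x j : M) = 0 := by
    intro i j
    rw [← hzl, hE]
    simp
  have hrr : ∀ i j, E (ε (Sum.inr i)) (y j : M) = if i = j then 1 else 0 := by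
    intro i j
    rw [← hzr, hE]
    simp [eq_comm]
  have hA3 : ∀ i (α : A), E (ε (Sum.inl i)) (α : M) = ((DA i α : A) : M) := fun i α =>
    der_comp (K := A) (L := M) (DA i) (E (ε (Sum.inl i))) x hx (fun c => by
      change E (ε (Sum.inl i)) (x c : M) = ((DA i (x c) : A) : M)
      rw [hll, hDA]
      split_ifs <;> rfl) α
  have hB3 : ∀ i (β : B), E (ε (Sum.inr i)) (β : M) = ((DB i β : B) : M) := fun i β =>
    der_comp (K := B) (L := M) (DB i) (E (ε (Sum.inr i))) y hy (fun c => by
      change E (ε (Sum.inr i)) (y c : M) = ((DB i (y c) : B) : M)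
      rw [hrr, hDB]
      split_ifs <;> rfl) β
  have hB0 : ∀ i (β : B), E (ε (Sum.inl i)) (β : M) = 0 := fun i β =>
    der_comp (K := B) (L := M) 0 (E (ε (Sum.inl i))) y hy (fun c => by
      change E (ε (Sum.inl i)) (y c : M) = ((0 : B) : M)
      rw [hlr]; rfl) β
  have hA0 : ∀ i (α : A), E (ε (Sum.inr i)) (α : M) = 0 := fun i α =>
    der_comp (K := A) (L := M) 0 (E (ε (Sum.inr i))) x hx (fun c => by
      change E (ε (Sum.inr i)) (x c : M) = ((0 : A) : M)
      rw [hrl]; rfl) α
  exact ⟨{
    x := x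
    hx := hx
    y := y
    hy := hy
    ε := ε
    E := E
    e1 := hB0
    e2 := hll
    e3 := fun i α => ⟨_, hA3 i α⟩
    f1 := hA0
    f2 := hrr
    f3 := fun i β => ⟨_, hB3 i β⟩
    z := z
    hz := hz
    g := fun i j => by rw [hE]; simp [eq_comm] }⟩

end

end Q36.GP
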