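import Mathlib
import Pool.Agent.W619.PQ.Defs

/-!
The place defined by a prime element of a factorial domain.
-/

set_option autoImplicit false
set_option linter.overlappingInstances false
set_option linter.unusedSectionVars false

open FF

namespace Q36.GP

section

variable {k R K : Type} [Field k] [CommRing R] [IsDomain R] [UniqueFactorizationMonoid R]
  [Field K] [Algebra k R] [Algebra k K] [Algebra R K] [IsScalarTower k R K] [IsFractionRing R K]

open scoped Classical in
/-- the valuation of a prime element -/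
noncomputable def pval (π : R) (hπ : Prime π) : Valuation R (WithZero (Multiplicative ℤ)) where
  toFun a := if a = 0 then 0 else WithZero.exp (-(multiplicity π a : ℤ))
  map_zero' := by simp
  map_one' := by
    rw [if_neg one_ne_zero]
    have : multiplicity π 1 = 0 := by
      rw [multiplicity_eq_zero]
      exact fun h => hπ.not_isUnit (isUnit_of_dvd_one h)
    rw [this]
    simp
  map_mul' := by
    intro a b
    by_cases ha : a = 0
    · simp [ha]
    by_cases hb : b = 0
    · simp [hb]
    rw [if_neg ha, if_neg hb, if_neg (mul_ne_zero ha hb), ← WithZero.exp_add]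
    congr 1
    rw [multiplicity_mul hπ (FiniteMultiplicity.of_prime_left hπ (mul_ne_zero ha hb))]
    push_cast
    ring
  map_add_le_max' := by
    intro a b
    by_cases ha : a = 0
    · rw [ha, zero_add]
      exact le_max_right _ _
    by_cases hb : b = 0
    · rw [hb, add_zero]
      exact le_max_left _ _
    by_cases hab : a + b = 0
    · rw [if_pos hab]
      exact zero_le
    rw [if_neg ha, if_neg hb, if_neg hab, le_max_iff, WithZero.exp_le_exp, WithZero.exp_le_exp]
    have h1 : π ^ min (multiplicity π a) (multiplicity π b) ∣ a + b :=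
      dvd_add ((pow_dvd_pow _ (min_le_left _ _)).trans (pow_multiplicity_dvd π a))
        ((pow_dvd_pow _ (min_le_right _ _)).trans (pow_multiplicity_dvd π b))
    have h2 := (FiniteMultiplicity.of_prime_left hπ hab).le_multiplicity_of_pow_dvd h1
    omega

/-- **The place of a prime element.** -/
theorem exists_pv (π : R) (hπ : Prime π) : ∃ v : Place k K,
    (∀ a : R, v.Reg (algebraMap R K a)) ∧
      ∀ a : R, a ≠ 0 → (v.ord (algebraMap R K a) = 0 ↔ ¬ π ∣ a) := by
  classical
  have hS : nonZeroDivisors R ≤ (pval π hπ).supp.primeCompl := by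
    intro a ha h
    have h1 : (pval π hπ) a = 0 := h
    have h2 : a ≠ 0 := nonZeroDivisors.ne_zero ha
    have h3 : (if a = 0 then 0 else WithZero.exp (-(multiplicity π a : ℤ))) = 0 := h1
    rw [if_neg h2] at h3
    exact WithZero.exp_ne_zero h3
  have hval : ∀ a : R, a ≠ 0 → (pval π hπ).extendToLocalization hS K (algebraMap R K a) =
      WithZero.exp (-(multiplicity π a : ℤ)) := by
    intro a ha
    rw [Valuation.extendToLocalization_apply_map_apply]
    change (if a = 0 then 0 else WithZero.exp (-(multiplicity π a : ℤ))) = _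
    rw [if_neg ha]
  refine ⟨Place.ofVal ((pval π hπ).extendToLocalization hS K) ⟨algebraMap R K π, ?_⟩ ?_, ?_, ?_⟩
  · rw [hval _ hπ.ne_zero]
    congr 1
    have : multiplicity π π = 1 := by
      exact multiplicity_self
    rw [this]
    rfl
  · intro c hc
    have h0 : algebraMap k R c ≠ 0 := by
      intro h
      have h1 : algebraMap k K c = 0 := by
        rw [IsScalarTower.algebraMap_apply k R K, h, map_zero]
      exact hc ((algebraMap k K).injective (by rw [h1, map_zero]))
    rw [IsScalarTower.algebraMap_apply k R K, hval _ h0]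
    have h1 : IsUnit (algebraMap k R c) := (isUnit_iff_ne_zero.2 hc).map (algebraMap k R)
    have h2 : multiplicity π (algebraMap k R c) = 0 := by
      rw [multiplicity_eq_zero]
      exact fun h => hπ.not_isUnit (isUnit_of_dvd_unit h h1)
    rw [h2]
    simp
  · intro a
    by_cases ha : a = 0
    · left
      rw [ha, map_zero]
    · right
      change 0 ≤ - WithZero.log _
      rw [hval a ha, WithZero.log_exp]
      omega
  · intro a ha
    change - WithZero.log _ = 0 ↔ _
    rw [hval a ha, WithZero.log_exp, neg_neg]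
    rw [Nat.cast_eq_zero, multiplicity_eq_zero]

/-- **Elements regular at almost all the primes.** -/
theorem frac_of_reg (G : Submonoid R) (z : K)
    (hz : ∀ (π : R), Prime π → (∀ g ∈ G, g ≠ 0 → ¬ π ∣ g) → ∀ v : Place k K,
      (∀ a : R, v.Reg (algebraMap R K a)) →
      (∀ a : R, a ≠ 0 → (v.ord (algebraMap R K a) = 0 ↔ ¬ π ∣ a)) → v.Reg z) :
    ∃ a g : R, g ∈ G ∧ g ≠ 0 ∧ z = algebraMap R K a / algebraMap R K g := by
  classical
  obtain ⟨a, ⟨b, hb⟩, hab, hz2⟩ := IsFractionRing.exists_reduced_fraction R z
  have hb0 : b ≠ 0 := nonZeroDivisors.ne_zero hb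
  have hinj : Function.Injective (algebraMap R K) := IsFractionRing.injective R K
  have hbK : algebraMap R K b ≠ 0 := fun h => hb0 (hinj (by rw [h, map_zero]))
  have hz3 : z = algebraMap R K a / algebraMap R K b := by
    rw [← hz2, IsFractionRing.mk'_eq_div]
  obtain ⟨f, hf, hfb⟩ := UniqueFactorizationMonoid.exists_prime_factors b hb0
  have key : ∀ π : R, Prime π → π ∣ b → ∃ g ∈ G, g ≠ 0 ∧ π ∣ g := by
    intro π hπ hπb
    by_contra hcon
    push Not at hcon
    obtain ⟨v, hv1, hv2⟩ := exists_pv (k := k) (K := K) π hπ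
    have h1 := hz π hπ hcon v hv1 hv2
    have hπa : ¬ π ∣ a := fun h => hπ.not_isUnit (hab h hπb)
    have ha0 : a ≠ 0 := fun h => hπa (by rw [h]; exact dvd_zero _)
    have haK : algebraMap R K a ≠ 0 := fun h => ha0 (hinj (by rw [h, map_zero]))
    have h2 := (hv2 a ha0).2 hπa
    have h3 : v.ord (algebraMap R K b) ≠ 0 := fun h => (hv2 b hb0).1 h hπb
    have h4 : 0 ≤ v.ord (algebraMap R K b) := (hv1 b).resolve_left hbK
    rw [hz3] at h1
    rcases h1 with h1 | h1
    · exact div_ne_zero haK hbK h1
    · rw [v.ord_div haK hbK, h2] at h1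
      omega
  have key2 : ∀ f : Multiset R, (∀ x ∈ f, ∃ g ∈ G, g ≠ 0 ∧ x ∣ g) →
      ∃ g ∈ G, g ≠ 0 ∧ f.prod ∣ g := by
    intro f
    induction f using Multiset.induction_on with
    | empty => exact fun _ => ⟨1, G.one_mem, one_ne_zero, by simp⟩
    | cons x f ih =>
      intro h
      obtain ⟨g, hg, hg0, hxg⟩ := h x (Multiset.mem_cons_self x f)
      obtain ⟨g', hg', hg0', hfg⟩ := ih fun y hy => h y (Multiset.mem_cons_of_mem hy)
      exact ⟨g * g', G.mul_mem hg hg', mul_ne_zero hg0 hg0', by
        rw [Multiset.prod_cons]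
        exact mul_dvd_mul hxg hfg⟩
  obtain ⟨g, hg, hg0, hfg⟩ := key2 f fun x hx => key x (hf x hx)
    ((Multiset.dvd_prod hx).trans hfb.dvd)
  obtain ⟨c, hc⟩ := hfb.symm.dvd.trans hfg
  refine ⟨a * c, g, hg, hg0, ?_⟩
  have hgK : algebraMap R K g ≠ 0 := fun h => hg0 (hinj (by rw [h, map_zero]))
  rw [hz3, div_eq_div_iff hbK hgK, hc, map_mul, map_mul]
  ring

end

end Q36.GP
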