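import Pool.Agent.Q36.GP.Kz
import Pool.Agent.Q36.GP.Pv
import Pool.Agent.Y692.NT.Tr

/-!
Places of a product which are trivial on the factors.
-/

set_option autoImplicit false
set_option linter.overlappingInstances false
set_option linter.unusedSectionVars false

open FF IntermediateField Pool.Agent.W619.PQ Pool.Agent.W619.TW Pool.Agent.W603.LV

namespace Q36.GP

section

variable {k M : Type} [Field k] [Field M] [Algebra k M] {A B : IntermediateField k M} {q : ℕ}

instance towerKZ (y : Fin q → B) : IsScalarTower k (KZ A y) M :=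
  IsScalarTower.of_algebraMap_eq fun _ => rfl

/-- evaluation of polynomials -/
noncomputable def evz (A : IntermediateField k M) (y : Fin q → B) :
    MvPolynomial (Fin q) A →ₐ[A] KZ A y :=
  MvPolynomial.aeval fun j => (⟨(y j : M), subset_adjoin A _ ⟨j, rfl⟩⟩ : KZ A y)

theorem evz_coe (y : Fin q → B) (r : MvPolynomial (Fin q) A) :
    (evz A y r : M) = MvPolynomial.aeval (fun j => (y j : M)) r := by
  unfold evz
  exact (MvPolynomial.aeval_algebraMap_apply (A := KZ A y) M
    (fun j => (⟨(y j : M), subset_adjoin A _ ⟨j, rfl⟩⟩ : KZ A y)) r).symm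

theorem evz_inj {y : Fin q → B} (hyA : AlgebraicIndependent A fun j => (y j : M)) :
    Function.Injective (evz A y) := by
  intro r s hrs
  apply hyA
  change MvPolynomial.aeval (fun j => (y j : M)) r = MvPolynomial.aeval (fun j => (y j : M)) s
  rw [← evz_coe, ← evz_coe, hrs]

theorem evz_frac (y : Fin q → B) (z : KZ A y) : ∃ a b : MvPolynomial (Fin q) A,
    z = evz A y a / evz A y b := by
  obtain ⟨r, s, hrs⟩ := (mem_adjoin_range_iff A (fun j => (y j : M)) (z : M)).1 z.2
  refine ⟨r, s, Subtype.ext ?_⟩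
  rw [hrs]
  push_cast
  rw [evz_coe, evz_coe]

/-- the place `v` comes from a prime which does not divide the polynomials over `k` -/
structure Gd (A : IntermediateField k M) (y : Fin q → B) (π : MvPolynomial (Fin q) A)
    (v : Place k (KZ A y)) : Prop where
  pr : Prime π
  nd : ∀ g : MvPolynomial (Fin q) k, g ≠ 0 → ¬ π ∣ MvPolynomial.map (algebraMap k A) g
  rg : ∀ a, v.Reg (evz A y a)
  od : ∀ a, a ≠ 0 → (v.ord (evz A y a) = 0 ↔ ¬ π ∣ a)

/-- **Elements regular at the good places.** -/
theorem frac_of_gd {y : Fin q → B} (hyA : AlgebraicIndependent A fun j => (y j : M))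
    (z : KZ A y) (hz : ∀ π v, Gd A y π v → v.Reg z) : (z : M) ∈ RR A B := by
  classical
  let i1 : Algebra (MvPolynomial (Fin q) A) (KZ A y) := (evz A y).toRingHom.toAlgebra
  have i2 : IsScalarTower k (MvPolynomial (Fin q) A) (KZ A y) :=
    IsScalarTower.of_algebraMap_eq fun c => by
      change algebraMap k (KZ A y) c = evz A y (MvPolynomial.C (algebraMap k A c))
      rw [← MvPolynomial.algebraMap_eq, AlgHom.commutes]
      rfl
  have i3 : FaithfulSMul (MvPolynomial (Fin q) A) (KZ A y) :=
    (faithfulSMul_iff_algebraMap_injective _ _).2 (evz_inj hyA)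
  have i4 : IsFractionRing (MvPolynomial (Fin q) A) (KZ A y) :=
    IsFractionRing.of_field _ _ fun z => evz_frac y z
  obtain ⟨a, g, ⟨g', hg'⟩, hg0, hag⟩ := frac_of_reg (k := k)
    (MonoidHom.mrange (MvPolynomial.map (σ := Fin q) (algebraMap k A)).toMonoidHom) z
    (fun π hπ hG v h1 h2 => hz π v ⟨hπ, fun g hg => hG _ ⟨g, rfl⟩ (by
      intro h
      have h3 : Function.Injective (MvPolynomial.map (σ := Fin q) (algebraMap k A)) :=
        MvPolynomial.map_injective _ (algebraMap k A).injective
      exact hg (h3 (by rw [map_zero]; exact h))), h1, h2⟩)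
  have h1 : (z : M) = (evz A y a : M) / (evz A y g : M) := by
    rw [hag]
    rfl
  have hadj : ∀ r : MvPolynomial (Fin q) A, (evz A y r : M) ∈ RR A B := by
    intro r
    rw [evz_coe]
    induction r using MvPolynomial.induction_on with
    | C a =>
      rw [MvPolynomial.aeval_C]
      exact RR.left a.2
    | add p q hp hq =>
      rw [map_add]
      exact add_mem hp hq
    | mul_X p i hp =>
      rw [map_mul, MvPolynomial.aeval_X]
      exact mul_mem hp (RR.right (y i).2)
  rw [h1, div_eq_mul_inv]
  refine mul_mem (hadj a) ?_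
  have h2 : (evz A y g : M) = ((MvPolynomial.aeval y g' : B) : M) := by
    rw [← hg', ← aeval_map (A := A), evz_coe]
    rfl
  rw [h2]
  exact RR.right (inv_mem (MvPolynomial.aeval y g').2)

variable {y : Fin q → B} {π : MvPolynomial (Fin q) A} {v : Place k (KZ A y)} {P : Place k M}
  {e : ℕ}

theorem Gd.ordE (h : Gd A y π v) (hP : Over P v e) {a : MvPolynomial (Fin q) A} (ha : ¬ π ∣ a) :
    P.ord (evz A y a : M) = 0 := by
  have ha0 : a ≠ 0 := fun h => ha (by rw [h]; exact dvd_zero _)
  have h1 := hP.2 (evz A y a)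
  rw [(h.od a ha0).2 ha, mul_zero] at h1
  exact h1

theorem Gd.regE (h : Gd A y π v) (hP : Over P v e) (a : MvPolynomial (Fin q) A) :
    P.Reg (evz A y a : M) := hP.reg.2 (h.rg a)

theorem Gd.ordA (h : Gd A y π v) (hP : Over P v e) (a : A) : P.ord (a : M) = 0 := by
  by_cases ha : a = 0
  · rw [ha]
    exact P.ord_zero
  · have h1 : ¬ π ∣ MvPolynomial.C a := by
      intro h2
      exact h.pr.not_isUnit (isUnit_of_dvd_unit h2
        ((isUnit_iff_ne_zero.2 ha).map (MvPolynomial.C (σ := Fin q))))
    have h2 := h.ordE hP h1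
    rw [evz_coe, MvPolynomial.aeval_C] at h2
    exact h2

theorem Gd.ordY (h : Gd A y π v) (hP : Over P v e) {g : MvPolynomial (Fin q) k} (hg : g ≠ 0) :
    P.ord ((MvPolynomial.aeval y g : B) : M) = 0 := by
  have h2 := h.ordE hP (h.nd g hg)
  rw [evz_coe, aeval_map] at h2
  exact h2

theorem Gd.ordB (h : Gd A y π v) (hP : Over P v e) (hy : IsTranscendenceBasis k y) (b : B) :
    P.ord (b : M) = 0 := by
  have hKY : ∀ c : KY y, P.ord ((c : B) : M) = 0 := by
    intro c
    by_cases hc0 : c = 0
    · rw [hc0]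
      exact P.ord_zero
    obtain ⟨r, s, hrs⟩ := (mem_adjoin_range_iff k y (c : B)).1 c.2
    have hr : r ≠ 0 := by
      rintro rfl
      rw [map_zero, zero_div] at hrs
      exact hc0 (Subtype.ext hrs)
    have hs : s ≠ 0 := by
      rintro rfl
      rw [map_zero, div_zero] at hrs
      exact hc0 (Subtype.ext hrs)
    have hr' : ((MvPolynomial.aeval y r : B) : M) ≠ 0 := fun h0 =>
      hr (hy.1 (by rw [map_zero]; exact Subtype.ext h0))
    have hs' : ((MvPolynomial.aeval y s : B) : M) ≠ 0 := fun h0 =>
      hs (hy.1 (by rw [map_zero]; exact Subtype.ext h0))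
    have h1 : ((c : B) : M) = ((MvPolynomial.aeval y r : B) : M) /
        ((MvPolynomial.aeval y s : B) : M) := by
      rw [hrs]
      rfl
    rw [h1, P.ord_div hr' hs', h.ordY hP hr, h.ordY hP hs, sub_zero]
  let P' : Place (KY y) M :=
    { ord := P.ord
      ord_zero := P.ord_zero
      ord_mul := P.ord_mul
      ord_add := P.ord_add
      ord_const := fun {c} _ => hKY c
      surj := P.surj }
  by_contra hne
  have h1 : Transcendental (KY y) (b : M) := P'.transcendental_of_ord_ne hne
  have h2 : Algebra.IsAlgebraic (KY y) B := hy.isAlgebraic_field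
  have h3 : IsAlgebraic (KY y) b := h2.isAlgebraic b
  have h4 : IsAlgebraic (KY y) (algebraMap B M b) := h3.algebraMap
  exact h1 h4

end

section

variable {k M : Type} [Field k] [Field M] [Algebra k M]

theorem div_of_family {P : Place k M} {n : ℕ} {ι : Type} [Fintype ι]
    (hc : Fintype.card ι = n - 1) (Y : ι → M) (hY : ∀ G : MvPolynomial ι k, G ≠ 0 →
      MvPolynomial.aeval Y G ≠ 0 ∧ P.ord (MvPolynomial.aeval Y G) = 0) : IsDivisorial P n := by
  have h1 : Fintype.card (Fin (n - 1)) = Fintype.card ι := by rw [Fintype.card_fin, hc]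
  let ε := Fintype.equivOfCardEq h1
  refine ⟨Y ∘ ε, fun G hG => ?_⟩
  have h2 := hY (MvPolynomial.rename ε G) (fun h =>
    hG (MvPolynomial.rename_injective ε ε.injective (by rw [h, map_zero])))
  rw [MvPolynomial.aeval_rename] at h2
  exact h2

variable {A B : IntermediateField k M} {q : ℕ}
  {y : Fin q → B} {π : MvPolynomial (Fin q) A} {v : Place k (KZ A y)} {P : Place k M}
  {e : ℕ}

/-- **The good places are divisorial.** -/
theorem Gd.div (h : Gd A y π v) (hP : Over P v e)
    (hyA : AlgebraicIndependent A fun j => (y j : M)) {p : ℕ} (x : Fin p → A)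
    (hx : AlgebraicIndependent k x) : IsDivisorial P (p + q) := by
  classical
  obtain ⟨i0, hi0⟩ : ∃ i0, i0 ∈ π.vars := by
    by_contra hcon
    have h1 : π.vars = ∅ := by
      ext i
      simp only [Finset.notMem_empty, iff_false]
      exact fun hi => hcon ⟨i, hi⟩
    rw [MvPolynomial.vars_eq_empty_iff_eq_C] at h1
    by_cases h2 : MvPolynomial.coeff 0 π = 0
    · rw [h2, map_zero] at h1
      exact h.pr.ne_zero h1
    · rw [h1] at h
      exact h.pr.not_isUnit ((isUnit_iff_ne_zero.2 h2).map (MvPolynomial.C (σ := Fin q)))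
  refine div_of_family (ι := {j : Fin q // j ≠ i0} ⊕ Fin p) ?_
    (Sum.elim (fun j => (y j : M)) (fun i => (x i : M))) fun G hG => ?_
  · have h1 : 0 < q := i0.pos
    rw [Fintype.card_sum, Fintype.card_fin, Fintype.card_subtype_compl, Fintype.card_fin,
      Fintype.card_subtype_eq]
    omega
  · set G1 := MvPolynomial.sumAlgEquiv k {j : Fin q // j ≠ i0} (Fin p) G with hG1
    let φ : MvPolynomial (Fin p) k →ₐ[k] A := MvPolynomial.aeval x
    set G2 : MvPolynomial {j : Fin q // j ≠ i0} A := MvPolynomial.map φ.toRingHom G1 with hG2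
    set G3 : MvPolynomial (Fin q) A := MvPolynomial.rename Subtype.val G2 with hG3
    have h1 : G1 ≠ 0 := fun h0 => hG ((MvPolynomial.sumAlgEquiv k _ _).injective (by
      rw [map_zero]; exact h0))
    have h2 : G2 ≠ 0 := fun h0 => h1 (MvPolynomial.map_injective _ hx (by
      rw [map_zero]; exact h0))
    have h3 : G3 ≠ 0 := fun h0 => h2 (MvPolynomial.rename_injective _ Subtype.val_injective (by
      rw [map_zero]; exact h0))
    have h4 : ¬ π ∣ G3 := by
      rintro ⟨c, hc⟩
      have hc0 : c ≠ 0 := by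
        rintro rfl
        rw [mul_zero] at hc
        exact h3 hc
      have h5 := MvPolynomial.degreeOf_mul_eq (n := i0) h.pr.ne_zero hc0
      rw [← hc] at h5
      have h6 : MvPolynomial.degreeOf i0 G3 = 0 := by
        by_contra h7
        have h8 := MvPolynomial.vars_rename _ _ (MvPolynomial.mem_vars_iff_degreeOf_ne_zero.2 h7)
        obtain ⟨j, -, hj⟩ := Finset.mem_image.1 h8
        exact j.2 hj
      have h7 := MvPolynomial.mem_vars_iff_degreeOf_ne_zero.1 hi0
      omega
    have h5 : MvPolynomial.aeval (Sum.elim (fun j : {j : Fin q // j ≠ i0} => (y j : M))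
        (fun i => (x i : M))) G = (evz A y G3 : M) := by
      rw [evz_coe, hG3, MvPolynomial.aeval_rename, hG2]
      let Ψ : MvPolynomial ({j : Fin q // j ≠ i0} ⊕ Fin p) k →ₐ[k] M :=
        ((MvPolynomial.aeval (R := A) ((fun j => (y j : M)) ∘
          (Subtype.val : {j : Fin q // j ≠ i0} → Fin q))).restrictScalars k).comp
        ((MvPolynomial.mapAlgHom φ).comp (MvPolynomial.sumAlgEquiv k _ _).toAlgHom)
      have h6 : MvPolynomial.aeval (Sum.elim (fun j : {j : Fin q // j ≠ i0} => (y j : M))
        (fun i => (x i : M))) = Ψ := by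
        refine MvPolynomial.algHom_ext fun i => ?_
        rcases i with j | i
        · rw [MvPolynomial.aeval_X]
          simp [Ψ]
        · rw [MvPolynomial.aeval_X]
          simp [Ψ, φ]
      rw [h6]
      rfl
    rw [h5]
    refine ⟨?_, h.ordE hP h4⟩
    intro h0
    exact h3 (evz_inj hyA (by rw [map_zero]; exact Subtype.ext h0))

end

end Q36.GP
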