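import Pool.Agent.Q36.GP.Dm

/-!
Factors of products: varieties and curves.
-/

set_option autoImplicit false
set_option linter.overlappingInstances false
set_option linter.unusedSectionVars false

open Polynomial FF IsDedekindDomain IntermediateField
open Pool.Agent.W602.GT Pool.Agent.W603.LV Pool.Agent.W619.PQ Pool.Agent.W619.PL
  Pool.Agent.W619.TW Pool.Agent.W619.X Pool.Agent.W619.Y Q36.PT Q36.SD Q36.HB Q36.HL Q36.GV
open Pool.Agent.W824.PG (cDer cDer_apply)

namespace Q36.GP

section

variable {k M : Type} [Field k] [CharZero k] [IsAlgClosed k] [Field M] [Algebra k M]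

theorem numLe_exp {K : Type} [Field K] [Algebra k K] {n : ℕ} {Bd : Place k K → Prop} {a b : ℕ}
    (hab : a ≤ b) (h : NumLe k K n Bd a) : NumLe k K n Bd b := by
  intro S
  obtain ⟨C, hC⟩ := h S
  exact ⟨C, fun m N hm hN => (hC m N hm hN).trans
    (Nat.mul_le_mul_left C (Nat.pow_le_pow_right hm hab))⟩

/-- transport of elliptic curves -/
theorem elliptic_equiv {K K' : Type} [Field K] [Field K'] [Algebra k K] [Algebra k K']
    (e : K ≃ₐ[k] K')
    (h : ∃ D : Derivation k K K, ∀ w : Place k K, ∀ t : K, w.ord t = 1 →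
      D t ≠ 0 ∧ w.ord (D t) = 0) :
    ∃ D : Derivation k K' K', ∀ w : Place k K', ∀ t : K', w.ord t = 1 →
      D t ≠ 0 ∧ w.ord (D t) = 0 := by
  obtain ⟨D, hD⟩ := h
  refine ⟨cDer e D, fun w t ht => ?_⟩
  obtain ⟨h1, h2⟩ := hD (Pool.Agent.W824.PG.plc e w) (e.symm t) (by
    change w.ord (e (e.symm t)) = 1
    rw [e.apply_symm_apply]
    exact ht)
  rw [cDer_apply]
  exact ⟨fun h => h1 (by simpa using h), h2⟩

open scoped Classical in
/-- **The numerical dimension of a curve.** -/
theorem num_curve (W : IntermediateField k M) [IsFF k W] (hirr : ¬ ∃ t : W, k⟮t⟯ = ⊤) :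
    NumLe k W 1 (fun _ => False) (if IsElliptic W then 0 else 1) := by
  have hT : IsFF k (⊤ : IntermediateField k W) :=
    Q36.SD.isFF_equiv (IntermediateField.topEquiv (F := k) (E := W)).symm
  have hessW : Algebra.EssFiniteType k W := IsFF.ess
  have hirr' : ∀ _ : Fin 1, ¬ ∃ t : (⊤ : IntermediateField k W), k⟮t⟯ = ⊤ := by
    rintro - ⟨t, ht⟩
    refine hirr ⟨(t : W), ?_⟩
    rw [eq_top_iff]
    intro z _
    have h1 : (⟨z, trivial⟩ : (⊤ : IntermediateField k W)) ∈ k⟮t⟯ := by rw [ht]; trivial
    have h2 : k⟮t⟯ ≤ (k⟮(t : W)⟯).comap (⊤ : IntermediateField k W).val := by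
      rw [adjoin_simple_le_iff]
      exact mem_adjoin_simple_self k (t : W)
    exact h2 h1
  have hbot : ∀ z : (⊥ : IntermediateField k W), ∃ r : k,
      algebraMap k (⊥ : IntermediateField k W) r = z := by
    intro z
    obtain ⟨r, hr⟩ := IntermediateField.mem_bot.1 z.2
    exact ⟨r, Subtype.ext hr⟩
  have hessB : Algebra.EssFiniteType k (⊥ : IntermediateField k W) :=
    Algebra.EssFiniteType.of_surjective (Algebra.ofId k _) hbot
  have htr : Algebra.trdeg k (⊥ : IntermediateField k W) = (0 : ℕ) := by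
    rw [Nat.cast_zero, trdeg_eq_zero_iff]
    exact ⟨fun z => by
      obtain ⟨r, rfl⟩ := hbot z
      exact isAlgebraic_algebraMap r⟩
  have h1 := num_domV0 (k := k) (L := W) (M := W) (⊥ : IntermediateField k W)
    (fun _ : Fin 1 => (⊤ : IntermediateField k W)) (d := 0) (n := 1) htr
    (by rw [IsFF.trdeg (k := k) (K := W)]; simp) (by
      rw [eq_top_iff]
      exact le_sup_of_le_right (le_iSup (fun _ : Fin 1 => (⊤ : IntermediateField k W)) 0))
    hirr' (num_bot (k := k) _ hbot)
  have h2 : 0 + {i : Fin 1 | ¬ IsElliptic (⊤ : IntermediateField k W)}.ncard ≤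
      (if IsElliptic W then 0 else 1) := by
    by_cases hW : IsElliptic W
    · rw [if_pos hW]
      have h3 : IsElliptic (⊤ : IntermediateField k W) :=
        elliptic_equiv (IntermediateField.topEquiv (F := k) (E := W)).symm hW
      have h4 : {i : Fin 1 | ¬ IsElliptic (⊤ : IntermediateField k W)} = ∅ := by
        ext i
        simp [h3]
      rw [h4, Set.ncard_empty]
    · rw [if_neg hW]
      have h4 : {i : Fin 1 | ¬ IsElliptic (⊤ : IntermediateField k W)}.ncard ≤
          (Set.univ : Set (Fin 1)).ncard := Set.ncard_le_ncard (Set.subset_univ _) Set.finite_univ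
      rw [Set.ncard_univ, Nat.card_eq_fintype_card, Fintype.card_fin] at h4
      omega
  exact numLe_exp h2 h1

/-- the data of a factor -/
structure Gfac (k K : Type) [Field k] [CharZero k] [IsAlgClosed k] [Field K] [Algebra k K]
    (d c a : ℕ) : Prop where
  sep : CanSepJ k K d (c + 1)
  img : ImageGe k K d (fun _ => False) 1 a
  num : NumLe k K d (fun _ => False) a

theorem gfac_var {K : Type} [Field K] [Algebra k K] {d c a : ℕ}
    (hc : c = 0 ∨ CanSepJ k K d (c + 1)) (ha : ImageGe k K d (fun _ => False) 1 a)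
    (hn : NumLe k K d (fun _ => False) a) : Gfac k K d c a := by
  refine ⟨?_, ha, hn⟩
  rcases hc with hc | hc
  · have hpos : PlurigenusPos k K d 1 := by
      obtain ⟨ω, h1, D, h2, -⟩ := ha
      exact ⟨ω 0, (reg_of_sec (h1 0)).1, (reg_of_sec (h1 0)).2, D, h2 0⟩
    rw [hc]
    exact sep_one hpos
  · exact hc

open scoped Classical in
theorem gfac_curve (W : IntermediateField k M) [IsFF k W] {d c : ℕ} (hd : Algebra.trdeg k W = d)
    (hγ : ∀ b : W, Transcendental k b → c + 2 ≤ Module.finrank k⟮b⟯ W) :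
    Gfac k W d c (if IsElliptic W then 0 else 1) := by
  have h3 : d = 1 := by
    have h4 := IsFF.trdeg (k := k) (K := W)
    rw [hd] at h4
    exact_mod_cast h4
  subst h3
  have h2γ : ∀ b : W, Transcendental k b → 2 ≤ Module.finrank k⟮b⟯ W :=
    fun b hb => le_trans (by omega) (hγ b hb)
  have hirr := irr_of_gon h2γ
  refine ⟨sep_curve fun b hb => ?_, ?_, num_curve W hirr⟩
  · have := hγ b hb
    omega
  · have h5 := image_curve hd h2γ
    have h6 : (0 < canDeg k W) ↔ ¬ IsElliptic W :=
      ⟨fun h1 h2 => by have := canDeg_elliptic h2; omega, fun h1 => canDeg_pos hirr h1⟩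
    by_cases hW : IsElliptic W
    · rw [if_neg (fun h => h6.1 h hW)] at h5
      rw [if_pos hW]
      exact h5
    · rw [if_pos (h6.2 hW)] at h5
      rw [if_neg hW]
      exact h5

end

end Q36.GP
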