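import Pool.Agent.Q36.GP.Gd

/-!
Regularity at the places which are trivial on the factors.
-/

set_option autoImplicit false
set_option linter.overlappingInstances false
set_option linter.unusedSectionVars false

open FF IntermediateField Pool.Agent.W602.GT Pool.Agent.W619.PQ Pool.Agent.W619.TW
  Pool.Agent.W603.LV

namespace Q36.GP

section

variable {k M : Type} [Field k] [CharZero k] [Field M] [Algebra k M]
  {A B : IntermediateField k M} {q : ℕ}
  {y : Fin q → B} {π : MvPolynomial (Fin q) A} {v : Place k (KZ A y)} {P : Place k M}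
  {e : ℕ}

theorem reg_inv' (P : Place k M) {f : M} (hf : P.ord f = 0) : P.Reg f⁻¹ := by
  by_cases h0 : f = 0
  · left
    rw [h0, inv_zero]
  · right
    rw [P.ord_inv, hf, neg_zero]

/-- fractions with denominators prime to `π` -/
theorem Gd.repr (h : Gd A y π v) (hyA : AlgebraicIndependent A fun j => (y j : M))
    {c : KZ A y} (hc : v.Reg c) : ∃ a b : MvPolynomial (Fin q) A, ¬ π ∣ b ∧
      c = evz A y a / evz A y b := by
  obtain ⟨a, b, hab⟩ := evz_frac y c
  by_cases hb : b = 0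
  · refine ⟨0, 1, fun h1 => h.pr.not_isUnit (isUnit_of_dvd_one h1), ?_⟩
    rw [hab, hb]
    simp
  obtain ⟨a', b', c', hrel, ha', hb'⟩ := UniqueFactorizationMonoid.exists_reduced_factors' a b hb
  have hc'0 : c' ≠ 0 := by
    rintro rfl
    rw [zero_mul] at hb'
    exact hb hb'.symm
  have hb'0 : b' ≠ 0 := by
    rintro rfl
    rw [mul_zero] at hb'
    exact hb hb'.symm
  have hne : ∀ r : MvPolynomial (Fin q) A, r ≠ 0 → evz A y r ≠ 0 := fun r hr h0 =>
    hr (evz_inj hyA (by rw [h0, map_zero]))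
  have h1 : c = evz A y a' / evz A y b' := by
    rw [hab, ← ha', ← hb', map_mul, map_mul, mul_div_mul_left _ _ (hne _ hc'0)]
  refine ⟨a', b', fun hπb => ?_, h1⟩
  have hπa : ¬ π ∣ a' := fun hπa => h.pr.not_isUnit (hrel hπa hπb)
  have ha'0 : a' ≠ 0 := by
    rintro rfl
    exact hπa (dvd_zero _)
  have h2 := (h.od a' ha'0).2 hπa
  have h3 : v.ord (evz A y b') ≠ 0 := fun h4 => (h.od b' hb'0).1 h4 hπb
  have h4 := (h.rg b').resolve_left (hne _ hb'0)
  rw [h1] at hc
  rcases hc with hc | hc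
  · exact div_ne_zero (hne _ ha'0) (hne _ hb'0) hc
  · rw [v.ord_div (hne _ ha'0) (hne _ hb'0), h2] at hc
    omega

theorem evz_der (D : Derivation k M M) (hA : ∀ a : A, ∃ a' : A, D (a : M) = (a' : M))
    (hDy : ∀ j, ∃ a : A, D (y j : M) = (a : M)) (r : MvPolynomial (Fin q) A) :
    ∃ r' : MvPolynomial (Fin q) A, D (evz A y r : M) = (evz A y r' : M) := by
  simp only [evz_coe]
  induction r using MvPolynomial.induction_on with
  | C a =>
    obtain ⟨a', ha'⟩ := hA a
    refine ⟨MvPolynomial.C a', ?_⟩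
    rw [MvPolynomial.aeval_C, MvPolynomial.aeval_C]
    exact ha'
  | add p q hp hq =>
    obtain ⟨p', hp'⟩ := hp
    obtain ⟨q', hq'⟩ := hq
    exact ⟨p' + q', by rw [map_add, map_add, map_add, hp', hq']⟩
  | mul_X p i hp =>
    obtain ⟨p', hp'⟩ := hp
    obtain ⟨a, ha⟩ := hDy i
    refine ⟨p * MvPolynomial.C a + p' * MvPolynomial.X i, ?_⟩
    rw [map_mul, MvPolynomial.aeval_X, D.leibniz, hp', ha, map_add, map_mul, map_mul,
      MvPolynomial.aeval_C, MvPolynomial.aeval_X, smul_eq_mul, smul_eq_mul]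
    change _ * (a : M) + _ = _ * (a : M) + _
    ring

/-- derivations map regular elements of the small field to regular elements -/
theorem Gd.presK (h : Gd A y π v) (hP : Over P v e)
    (hyA : AlgebraicIndependent A fun j => (y j : M))
    (D : Derivation k M M) (hA : ∀ a : A, ∃ a' : A, D (a : M) = (a' : M))
    (hDy : ∀ j, ∃ a : A, D (y j : M) = (a : M)) {c : KZ A y} (hc : v.Reg c) :
    P.Reg (D (c : M)) := by
  obtain ⟨a, b, hb, rfl⟩ := h.repr hyA hc
  obtain ⟨a', ha'⟩ := evz_der D hA hDy a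
  obtain ⟨b', hb'⟩ := evz_der D hA hDy b
  have h1 : ((evz A y a / evz A y b : KZ A y) : M) = (evz A y a : M) / (evz A y b : M) := rfl
  rw [h1, D.leibniz_div, ha', hb', smul_eq_mul, smul_eq_mul, smul_eq_mul]
  have h2 : P.Reg (((evz A y b : M)⁻¹) ^ 2) := by
    rw [pow_two]
    have h3 := reg_inv' P (h.ordE hP hb)
    exact P.reg_mul h3 h3
  refine P.reg_mul h2 ?_
  rw [sub_eq_add_neg]
  exact P.reg_add (P.reg_mul (h.regE hP b) (h.regE hP a'))
    (P.reg_neg (P.reg_mul (h.regE hP a) (h.regE hP b')))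

/-- traces -/
theorem Gd.tr (h : Gd A y π v) (hy : IsTranscendenceBasis k y) [FiniteDimensional (KZ A y) M]
    {z : M} (hz : ∀ (P : Place k M) (e : ℕ), Over P v e → P.Reg z) (b : B) :
    v.Reg (Algebra.trace (KZ A y) M (z * (b : M))) := by
  have h1 := Pool.Agent.Y692.NT.trace_reg v (z * (b : M)) fun w e hw => by
    have h2 : w.Reg (z * (b : M)) :=
      w.reg_mul (hz w e hw) (Or.inr (h.ordB hw hy b).ge)
    have h3 : Ge w 0 (z * (b : M)) := h2
    refine h3.mono ?_
    have := hw.1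
    omega
  exact h1

/-- **Hartogs.** -/
theorem mem_RR_of_gd (h : Pr A B) (hy : IsTranscendenceBasis k y)
    (hyA : AlgebraicIndependent A fun j => (y j : M)) [FiniteDimensional (KY y) B] {f : M}
    (hf : ∀ π v, Gd A y π v → ∀ (P : Place k M) (e : ℕ), Over P v e → P.Reg f) :
    f ∈ RR A B := by
  obtain ⟨hfin, r, e, e', hdec⟩ := decomp_kz h y hy.1
  rw [hdec f]
  refine sum_mem fun i _ => mul_mem ?_ (RR.right (e i).2)
  exact frac_of_gd hyA _ fun π v hv => hv.tr hy (hf π v hv) (e' i)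

/-- **Derivations preserve the good places.** -/
theorem Gd.pres (hv : Gd A y π v) (h : Pr A B) (hP : Over P v e) (hy : IsTranscendenceBasis k y)
    (hyA : AlgebraicIndependent A fun j => (y j : M)) [FiniteDimensional (KY y) B]
    (D : Derivation k M M) (hA : ∀ a : A, ∃ a' : A, D (a : M) = (a' : M))
    (hB : ∀ b : B, ∃ b' : B, D (b : M) = (b' : M))
    (hDy : ∀ j, ∃ a : A, D (y j : M) = (a : M)) : Pres P D := by
  classical
  obtain ⟨hfin, r, ε, ε', hdec⟩ := decomp_kz h y hy.1
  -- elements regular at all the places over `v`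
  have key : ∀ z : M, (∀ (Q : Place k M) (e : ℕ), Over Q v e → Q.Reg z) → P.Reg (D z) := by
    intro z hz
    rw [hdec z, map_sum]
    have h1 : ∀ s : Finset (Fin r), P.Reg (∑ i ∈ s, D (((Algebra.trace (KZ A y) M
        (z * (ε' i : M)) : KZ A y) : M) * (ε i : M))) := by
      intro s
      induction s using Finset.induction_on with
      | empty => rw [Finset.sum_empty]; exact P.reg_zero
      | insert i s hi ih =>
        rw [Finset.sum_insert hi]
        refine P.reg_add ?_ ih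
        have h2 := hv.tr hy hz (ε' i)
        obtain ⟨b', hb'⟩ := hB (ε i)
        rw [D.leibniz, hb', smul_eq_mul, smul_eq_mul]
        refine P.reg_add (P.reg_mul (hP.reg.2 h2) (Or.inr (hv.ordB hP hy b').ge))
          (P.reg_mul (Or.inr (hv.ordB hP hy (ε i)).ge) (hv.presK hP hyA D hA hDy h2))
    exact h1 Finset.univ
  intro z hz
  by_cases hz0 : z = 0
  · rw [hz0, map_zero]
    exact P.reg_zero
  obtain ⟨S, T, hS, hT, -⟩ := exists_places_over (K' := M) v
  obtain ⟨N, hN0, hN⟩ : ∃ N : ℤ, 1 ≤ N ∧ ∀ Q ∈ S, -Q.ord z ≤ N := by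
    refine ⟨1 + ∑ Q ∈ S, |Q.ord z|, ?_, fun Q hQ => ?_⟩
    · have : 0 ≤ ∑ Q ∈ S, |Q.ord z| := Finset.sum_nonneg fun _ _ => abs_nonneg _
      omega
    · have h1 := Finset.single_le_sum (f := fun Q : Place k M => |Q.ord z|)
        (fun _ _ => abs_nonneg _) hQ
      have h2 := neg_le_abs (Q.ord z)
      have h3 : |Q.ord z| ≤ ∑ Q ∈ S, |Q.ord z| := h1
      omega
  obtain ⟨s, hs1, hs2⟩ := approx_one (S.erase P) P (Finset.notMem_erase P S) 1 N
  have hs0 : s ≠ 0 ∧ P.ord s = 0 := by
    by_cases h1 : s - 1 = 0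
    · have h2 : s = 1 := by linear_combination h1
      rw [h2]
      exact ⟨one_ne_zero, P.ord_one⟩
    · have h2 := hs1.resolve_left h1
      have h3 := P.ord_add_eq (f := 1) (g := s - 1) one_ne_zero h1 (by rw [P.ord_one]; omega)
      rw [add_sub_cancel, P.ord_one] at h3
      exact h3
  have hsreg : ∀ (Q : Place k M) (e : ℕ), Over Q v e → Q.Reg s ∧ Q.Reg (s * z) := by
    intro Q e' hQ
    by_cases hQP : Q = P
    · subst hQP
      have h1 : Q.Reg s := Or.inr hs0.2.ge
      exact ⟨h1, Q.reg_mul h1 hz⟩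
    · have h1 := hs2 Q (Finset.mem_erase.2 ⟨hQP, hS Q e' hQ⟩)
      have h2 := h1.resolve_left hs0.1
      refine ⟨Or.inr (by omega), Or.inr ?_⟩
      rw [Q.ord_mul hs0.1 hz0]
      have := hN Q (hS Q e' hQ)
      omega
  have h1 := key s fun Q e' hQ => (hsreg Q e' hQ).1
  have h2 := key (s * z) fun Q e' hQ => (hsreg Q e' hQ).2
  have h3 : D z = s⁻¹ * (D (s * z) + -(z * D s)) := by
    rw [D.leibniz, smul_eq_mul, smul_eq_mul]
    have := hs0.1
    field_simp
    ring
  rw [h3]
  exact P.reg_mul (reg_inv' P hs0.2) (P.reg_add h2 (P.reg_neg (P.reg_mul hz h1)))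

end

end Q36.GP
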