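import Pool.Agent.Q36.GP.Ga
import Pool.Agent.Q36.GP.Dc

/-!
The product of a variety and an affine space inside a product.
-/

set_option autoImplicit false
set_option linter.overlappingInstances false
set_option linter.unusedSectionVars false

open FF IntermediateField Pool.Agent.W619.TW

namespace Q36.GP

section

variable {k M : Type} [Field k] [Field M] [Algebra k M] {A B : IntermediateField k M} {q : ℕ}

/-- the field generated by `A` and the `y j` -/
abbrev KZ (A : IntermediateField k M) (y : Fin q → B) : IntermediateField A M :=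
  IntermediateField.adjoin A (Set.range fun j => (y j : M))

/-- the subfield of `B` generated by the `y j` -/
abbrev KY (y : Fin q → B) : IntermediateField k B := IntermediateField.adjoin k (Set.range y)

theorem ky_le (y : Fin q → B) {z : B} (hz : z ∈ KY y) : (z : M) ∈ KZ A y := by
  have h1 : KY y ≤ ((KZ A y).restrictScalars k).comap B.val := by
    rw [adjoin_le_iff]
    rintro _ ⟨j, rfl⟩
    exact subset_adjoin A _ ⟨j, rfl⟩
  exact h1 hz

/-- the inclusion of the smaller field -/
def kyz (A : IntermediateField k M) (y : Fin q → B) : KY y →+* KZ A y where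
  toFun z := ⟨((z : B) : M), ky_le y z.2⟩
  map_one' := rfl
  map_mul' _ _ := rfl
  map_zero' := rfl
  map_add' _ _ := rfl

theorem aeval_ky (y : Fin q → B) (g : MvPolynomial (Fin q) k) :
    MvPolynomial.aeval y g ∈ KY y := by
  have h1 : MvPolynomial.aeval y g ∈ Algebra.adjoin k (Set.range y) := by
    rw [Algebra.adjoin_range_eq_range_aeval]
    exact ⟨g, rfl⟩
  exact algebra_adjoin_le_adjoin k _ h1

theorem aeval_map (y : Fin q → B) (g : MvPolynomial (Fin q) k) :
    MvPolynomial.aeval (fun j => (y j : M)) (MvPolynomial.map (algebraMap k A) g) =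
      ((MvPolynomial.aeval y g : B) : M) := by
  rw [MvPolynomial.aeval_map_algebraMap]
  exact MvPolynomial.aeval_algebraMap_apply M y g

/-- monomials times a basis -/
theorem indep_mono (y : Fin q → B) (hy : AlgebraicIndependent k y) {ι : Type}
    (b : ι → B) (hb : LinearIndependent (KY y) b) :
    LinearIndependent k fun p : (Fin q →₀ ℕ) × ι =>
      MvPolynomial.aeval y (MvPolynomial.monomial p.1 (1 : k)) * b p.2 := by
  have h1 : LinearIndependent k fun α : Fin q →₀ ℕ =>
      (⟨MvPolynomial.aeval y (MvPolynomial.monomial α (1 : k)), aeval_ky y _⟩ : KY y) := by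
    have h2 := (MvPolynomial.basisMonomials (Fin q) k).linearIndependent.map'
      (MvPolynomial.aeval (R := k) y).toLinearMap (LinearMap.ker_eq_bot.2 hy)
    refine LinearIndependent.of_comp (KY y).val.toLinearMap ?_
    have h3 : (KY y).val.toLinearMap ∘ (fun α : Fin q →₀ ℕ =>
        (⟨MvPolynomial.aeval y (MvPolynomial.monomial α (1 : k)), aeval_ky y _⟩ : KY y)) =
        (MvPolynomial.aeval (R := k) y).toLinearMap ∘ (MvPolynomial.basisMonomials (Fin q) k) := by
      funext α
      simp
    rw [h3]
    exact h2
  exact linearIndependent_smul h1 hb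

/-- **Linear independence over the field generated by `A` and the `y j`.** -/
theorem indep_kz (h : Pr A B) (y : Fin q → B) (hy : AlgebraicIndependent k y) {ι : Type}
    [Fintype ι] (b : ι → B) (hb : LinearIndependent (KY y) b) :
    LinearIndependent (KZ A y) fun i => (b i : M) := by
  classical
  have h1 := h.ld _ (indep_mono y hy b hb)
  -- polynomials first
  have h2 : ∀ r : ι → MvPolynomial (Fin q) A,
      ∑ i, MvPolynomial.aeval (fun j => (y j : M)) (r i) * (b i : M) = 0 → ∀ i, r i = 0 := by
    intro r hr
    have h3 : ∀ i, MvPolynomial.aeval (fun j => (y j : M)) (r i) =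
        ∑ α ∈ Finset.univ.biUnion fun i => (r i).support,
          algebraMap A M (MvPolynomial.coeff α (r i)) *
            ((MvPolynomial.aeval y (MvPolynomial.monomial α (1 : k)) : B) : M) := by
      intro i
      conv_lhs => rw [MvPolynomial.as_sum (r i), map_sum]
      rw [Finset.sum_subset (s₂ := Finset.univ.biUnion fun i => (r i).support)]
      · refine Finset.sum_congr rfl fun α _ => ?_
        rw [← aeval_map (A := A), MvPolynomial.map_monomial, MvPolynomial.aeval_monomial,
          MvPolynomial.aeval_monomial, map_one, map_one, one_mul]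
      · intro α hα
        exact Finset.mem_biUnion.2 ⟨i, Finset.mem_univ i, hα⟩
      · intro α _ hα
        rw [MvPolynomial.notMem_support_iff.1 hα, map_zero, map_zero]
    have h4 : ∑ p ∈ (Finset.univ.biUnion fun i => (r i).support) ×ˢ (Finset.univ : Finset ι),
        (MvPolynomial.coeff p.1 (r p.2)) •
          ((MvPolynomial.aeval y (MvPolynomial.monomial p.1 (1 : k)) * b p.2 : B) : M) = 0 := by
      rw [Finset.sum_product_right, ← hr]
      refine Finset.sum_congr rfl fun i _ => ?_
      rw [h3 i, Finset.sum_mul]
      refine Finset.sum_congr rfl fun α _ => ?_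
      rw [Algebra.smul_def]
      push_cast
      ring
    intro i
    refine MvPolynomial.ext _ _ fun α => ?_
    rw [MvPolynomial.coeff_zero]
    by_contra hne
    refine hne (linearIndependent_iff'.1 h1 _ (fun p => MvPolynomial.coeff p.1 (r p.2)) h4 (α, i) ?_)
    exact Finset.mem_product.2 ⟨Finset.mem_biUnion.2 ⟨i, Finset.mem_univ i,
      MvPolynomial.mem_support_iff.2 hne⟩, Finset.mem_univ i⟩
  rw [Fintype.linearIndependent_iff]
  intro g hg i
  -- common denominators
  have h3 : ∀ i, ∃ r s : MvPolynomial (Fin q) A,
      MvPolynomial.aeval (fun j => (y j : M)) s ≠ 0 ∧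
      (g i : M) * MvPolynomial.aeval (fun j => (y j : M)) s =
        MvPolynomial.aeval (fun j => (y j : M)) r := by
    intro i
    obtain ⟨r, s, hrs⟩ := (mem_adjoin_range_iff A (fun j => (y j : M)) (g i : M)).1 (g i).2
    by_cases hs : MvPolynomial.aeval (fun j => (y j : M)) s = 0
    · refine ⟨0, 1, by rw [map_one]; exact one_ne_zero, ?_⟩
      rw [hrs, hs, div_zero, zero_mul, map_zero]
    · exact ⟨r, s, hs, by rw [hrs, div_mul_cancel₀ _ hs]⟩
  choose r s hs hrs using h3
  have h4 := h2 (fun i => r i * ∏ j ∈ Finset.univ.erase i, s j) (by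
    have h5 : ∀ i, MvPolynomial.aeval (fun j => (y j : M)) (r i * ∏ j ∈ Finset.univ.erase i, s j) *
        (b i : M) = (∏ j, MvPolynomial.aeval (fun j => (y j : M)) (s j)) * ((g i : M) * (b i : M)) := by
      intro i
      rw [map_mul, map_prod, ← hrs, ← Finset.mul_prod_erase Finset.univ _ (Finset.mem_univ i)]
      ring
    rw [Finset.sum_congr rfl fun i _ => h5 i, ← Finset.mul_sum]
    have h6 : ∑ i, (g i : M) * (b i : M) = 0 := by
      rw [← hg]
      refine Finset.sum_congr rfl fun i _ => ?_
      rw [Algebra.smul_def]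
      rfl
    rw [h6, mul_zero]) i
  have h5 : r i = 0 := by
    rcases mul_eq_zero.1 h4 with h5 | h5
    · exact h5
    · exfalso
      obtain ⟨j, -, hj⟩ := Finset.prod_eq_zero_iff.1 h5
      exact hs j (by rw [hj, map_zero])
  have h6 := hrs i
  rw [h5, map_zero] at h6
  have h7 := (mul_eq_zero.1 h6).resolve_right (hs i)
  exact Subtype.ext h7

/-- the elements of `B` span -/
theorem span_kz (h : Pr A B) (y : Fin q → B) [FiniteDimensional (KY y) B] :
    Submodule.span (KZ A y) (Set.range (algebraMap B M)) = ⊤ := by
  have halg : ∀ x ∈ Set.range (algebraMap B M), IsAlgebraic (KZ A y) x := by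
    rintro _ ⟨x, rfl⟩
    have h1 : IsIntegral (KY y) x := Algebra.IsIntegral.isIntegral x
    obtain ⟨p, hp, hpx⟩ := h1
    refine IsIntegral.isAlgebraic ⟨p.map (kyz A y), hp.map _, ?_⟩
    rw [Polynomial.eval₂_map]
    have h2 := congrArg (algebraMap B M) hpx
    rw [map_zero, Polynomial.hom_eval₂] at h2
    exact h2
  have h1 : IntermediateField.adjoin (KZ A y) (Set.range (algebraMap B M)) = ⊤ := by
    rw [eq_top_iff]
    intro z _
    have h2 : (⊤ : IntermediateField k M) ≤
        ((IntermediateField.adjoin (KZ A y) (Set.range (algebraMap B M))).restrictScalars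
          A).restrictScalars k := by
      rw [← h.sup, sup_le_iff]
      constructor
      · intro z hz
        have h3 : z ∈ KZ A y := (KZ A y).algebraMap_mem ⟨z, hz⟩
        exact (IntermediateField.adjoin (KZ A y) (Set.range (algebraMap B M))).algebraMap_mem
          ⟨z, h3⟩
      · intro z hz
        exact subset_adjoin (KZ A y) _ ⟨⟨z, hz⟩, rfl⟩
    exact h2 (show z ∈ (⊤ : IntermediateField k M) from trivial)
  have h2 := adjoin_toSubalgebra_of_isAlgebraic halg
  rw [h1, top_toSubalgebra] at h2
  have h3 : Subalgebra.toSubmodule (Algebra.adjoin (KZ A y) (Set.range (algebraMap B M))) =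
      Submodule.span (KZ A y) (Set.range (algebraMap B M)) := by
    rw [Algebra.adjoin_eq_span]
    congr 1
    have h4 : Submonoid.closure (Set.range (algebraMap B M)) =
        MonoidHom.mrange (algebraMap B M).toMonoidHom := by
      apply le_antisymm
      · rw [Submonoid.closure_le]; exact fun z hz => hz
      · exact fun z hz => Submonoid.subset_closure hz
    rw [h4]
    rfl
  rw [← h3, ← h2]
  exact Algebra.top_toSubmodule

/-- **Dual families.** -/
theorem decomp_kz [CharZero k] (h : Pr A B) (y : Fin q → B) (hy : AlgebraicIndependent k y)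
    [FiniteDimensional (KY y) B] :
    FiniteDimensional (KZ A y) M ∧ ∃ (r : ℕ) (e e' : Fin r → B), ∀ z : M,
      z = ∑ i, ((Algebra.trace (KZ A y) M (z * (e' i : M)) : KZ A y) : M) * (e i : M) := by
  let i1 : Algebra (KY y) (KZ A y) := (kyz A y).toAlgebra
  have i2 : IsScalarTower (KY y) (KZ A y) M := IsScalarTower.of_algebraMap_eq fun _ => rfl
  have i3 : IsScalarTower (KY y) B M := IsScalarTower.of_algebraMap_eq fun _ => rfl
  have hsep : Algebra.IsSeparable (KY y) B := inferInstance
  have hspan := span_kz h y
  refine decomp (k0 := KY y) (B := B) (K0 := KZ A y) (M := M) hspan ?_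
  let b : Module.Basis (Fin (Module.finrank (KY y) B)) (KY y) B := Module.finBasis _ _
  have h1 := indep_kz h y hy b b.linearIndependent
  have h2 : ⊤ ≤ Submodule.span (KZ A y) (Set.range fun i => (b i : M)) := by
    rw [← hspan, Submodule.span_le]
    rintro _ ⟨x, rfl⟩
    rw [← b.sum_repr x, map_sum]
    refine Submodule.sum_mem _ fun i _ => ?_
    have h3 : algebraMap B M (b.repr x i • b i) = (kyz A y (b.repr x i)) • (b i : M) := by
      rw [Algebra.smul_def, map_mul, Algebra.smul_def]
      rfl
    rw [h3]
    exact Submodule.smul_mem _ _ (Submodule.subset_span ⟨i, rfl⟩)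
  have h3 := Module.finrank_eq_card_basis (Module.Basis.mk h1 h2)
  rw [h3, Fintype.card_fin]

end

end Q36.GP
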