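import Pool.Agent.Q36.GP.Nm
import Pool.Agent.Q36.GV.Sq

/-!
The numerical dimension of a product of varieties is at most the sum.
-/

set_option autoImplicit false
set_option linter.overlappingInstances false
set_option linter.unusedSectionVars false

open Polynomial FF IsDedekindDomain IntermediateField
open Pool.Agent.W602.GT Pool.Agent.W603.LV Pool.Agent.W619.PQ Pool.Agent.W619.PL
  Pool.Agent.W619.TW Pool.Agent.W619.X Pool.Agent.W619.Y Q36.PT Q36.SD Q36.HB Q36.HL Q36.GV

namespace Q36.GP

section

variable {k K K' : Type} [Field k] [CharZero k] [IsAlgClosed k] [Field K] [Field K']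
  [Algebra k K] [Algebra k K'] {n : ℕ}

theorem bdUp_false {K L : Type} [Field K] [Field L] [Algebra k K] [Algebra k L] [Algebra K L] :
    BdUp (k := k) (K := K) (L := L) (fun _ => False) = fun _ => False := by
  funext w
  simp [BdUp]

/-- transport along an isomorphism -/
theorem iso_all (e : K ≃ₐ[k] K') [Algebra.EssFiniteType k K] (hn : Algebra.trdeg k K = n) :
    (IsPsef k K n (fun _ => False) → IsPsef k K' n (fun _ => False)) ∧
    (NumNeg k K' n (fun _ => False) → NumNeg k K n (fun _ => False)) ∧
    ∀ a, NumLe k K' n (fun _ => False) a → NumLe k K n (fun _ => False) a := by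
  let i1 : Algebra K K' := e.toRingHom.toAlgebra
  have i2 : IsScalarTower k K K' := IsScalarTower.of_algebraMap_eq fun c => (e.commutes c).symm
  have i3 : FiniteDimensional K K' :=
    Module.Finite.of_surjective (Algebra.linearMap K K') e.surjective
  have h := pTRANS k K K' n hn (fun y hy => fin_over y hy) (fun _ => False)
  rw [bdUp_false] at h
  exact h

end

section

variable {k M : Type} [Field k] [CharZero k] [IsAlgClosed k] [Field M] [Algebra k M]

theorem bdTwo_false {A B : IntermediateField k M} :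
    BdTwo A B (fun _ => False) (fun _ => False) = fun _ => False := by
  funext w
  simp [BdTwo]

/-- **The compositum of two fields.** -/
theorem sup_two (A B : IntermediateField k M) {p q : ℕ} [Algebra.EssFiniteType k A]
    [Algebra.EssFiniteType k B] (hA : Algebra.trdeg k A = p) (hB : Algebra.trdeg k B = q)
    (hAB : Algebra.trdeg k ↥(A ⊔ B) = (p + q : ℕ)) :
    (IsPsef k ↥(A ⊔ B) (p + q) (fun _ => False) → IsPsef k A p (fun _ => False) ∧
      IsPsef k B q (fun _ => False)) ∧
    (NumNeg k A p (fun _ => False) ∨ NumNeg k B q (fun _ => False) →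
      NumNeg k ↥(A ⊔ B) (p + q) (fun _ => False)) ∧
    ∀ a b, NumLe k A p (fun _ => False) a → NumLe k B q (fun _ => False) b →
      NumLe k ↥(A ⊔ B) (p + q) (fun _ => False) (a + b) := by
  let A' : IntermediateField k ↥(A ⊔ B) := restrict (le_sup_left : A ≤ A ⊔ B)
  let B' : IntermediateField k ↥(A ⊔ B) := restrict (le_sup_right : B ≤ A ⊔ B)
  have eA : A ≃ₐ[k] A' := restrictAlgEquiv (le_sup_left : A ≤ A ⊔ B)
  have eB : B ≃ₐ[k] B' := restrictAlgEquiv (le_sup_right : B ≤ A ⊔ B)
  have hessA' : Algebra.EssFiniteType k A' := (Algebra.EssFiniteType.iff_of_algEquiv eA).1 inferInstance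
  have hessB' : Algebra.EssFiniteType k B' := (Algebra.EssFiniteType.iff_of_algEquiv eB).1 inferInstance
  have hA' : Algebra.trdeg k A' = p := by rw [← hA]; exact eA.symm.trdeg_eq
  have hB' : Algebra.trdeg k B' = q := by rw [← hB]; exact eB.symm.trdeg_eq
  have hsup : A' ⊔ B' = ⊤ := by
    apply lift_injective (A ⊔ B)
    rw [lift_top, lift_sup, lift_restrict, lift_restrict]
  obtain ⟨a1, a2, a3⟩ := iso_all eA.symm (n := p) hA'
  obtain ⟨a4, a5, a6⟩ := iso_all eA (n := p) hA
  obtain ⟨b1, b2, b3⟩ := iso_all eB.symm (n := q) hB'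
  obtain ⟨b4, b5, b6⟩ := iso_all eB (n := q) hB
  refine ⟨fun h => ?_, fun h => ?_, fun a b ha hb => ?_⟩
  · rw [← bdTwo_false (A := A') (B := B')] at h
    obtain ⟨h1, h2⟩ := psef_two A' B' hA' hB' hAB hsup _ _ h
    exact ⟨a1 h1, b1 h2⟩
  · rw [← bdTwo_false (A := A') (B := B')]
    refine neg_two A' B' hA' hB' hAB hsup _ _ ?_
    rcases h with h | h
    · exact Or.inl (a2 h)
    · exact Or.inr (b2 h)
  · rw [← bdTwo_false (A := A') (B := B')]
    exact num_two A' B' hA' hB' hAB hsup _ _ (a3 a ha) (b3 b hb)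

/-- the trivial factor -/
theorem num_bot (K : Type) [Field K] [Algebra k K] (hK : ∀ z : K, ∃ r : k, algebraMap k K r = z) :
    NumLe k K 0 (fun _ => False) 0 := by
  classical
  intro S
  refine ⟨1, fun m N hm hN => ?_⟩
  obtain ⟨ω, hω, -⟩ := hN
  by_contra hlt
  push Not at hlt
  have h1 : 1 < N := by simpa using hlt
  have huniq : ∀ D D' : Fin 0 → Derivation k K K, D = D' := fun D D' => by
    funext i
    exact i.elim0
  obtain ⟨r0, hr0⟩ := hK (ω ⟨0, by omega⟩ Fin.elim0)
  obtain ⟨r1, hr1⟩ := hK (ω ⟨1, h1⟩ Fin.elim0)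
  have h2 : r1 • ω ⟨0, by omega⟩ - r0 • ω ⟨1, h1⟩ = 0 := by
    funext D
    rw [huniq D Fin.elim0]
    simp only [Pi.sub_apply, Pi.smul_apply, Pi.zero_apply]
    rw [← hr0, ← hr1, Algebra.smul_def, Algebra.smul_def, mul_comm, sub_self]
  have h3 : LinearIndependent k (fun i : Fin 2 => ω ⟨i, by omega⟩) :=
    hω.comp (fun i : Fin 2 => ⟨i, by omega⟩) (fun i j hij => by
      have := congrArg Fin.val hij
      exact Fin.ext this)
  rw [Fintype.linearIndependent_iff] at h3
  have h4 := h3 (fun i => if i = 0 then r1 else -r0) (by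
    rw [Fin.sum_univ_two]
    simp only [if_true, one_ne_zero, if_false]
    rw [neg_smul, ← sub_eq_add_neg]
    exact h2)
  have h5 : r1 = 0 := by simpa using h4 0
  have h6 : ω ⟨1, h1⟩ = 0 := by
    funext D
    rw [huniq D Fin.elim0, ← hr1, h5, map_zero]
    rfl
  exact hω.ne_zero ⟨1, h1⟩ h6

variable {s : ℕ} {d : Fin s → ℕ} (F : Fin s → IntermediateField k M)
  [hess : ∀ i, Algebra.EssFiniteType k (F i)]

theorem part_insert {S : Finset (Fin s)} {i : Fin s} : part F (insert i S) = F i ⊔ part F S := by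
  classical
  refine le_antisymm (iSup_le fun j => ?_) (sup_le (le_part F (Finset.mem_insert_self i S))
    (iSup_le fun j => le_part F (Finset.mem_insert_of_mem j.2)))
  rcases Finset.mem_insert.1 j.2 with h | h
  · rw [h]
    exact le_sup_left
  · exact (le_part F h).trans le_sup_right

/-- **The numerical dimension of a partial product.** -/
theorem num_part (hd : ∀ i, Algebra.trdeg k (F i) = d i)
    (hM : Algebra.trdeg k M = (∑ i, d i : ℕ)) (hsup : ⨆ i, F i = ⊤) {a : Fin s → ℕ}
    (ha : ∀ i, NumLe k (F i) (d i) (fun _ => False) (a i)) (S : Finset (Fin s)) :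
    NumLe k (part F S) (∑ i ∈ S, d i) (fun _ => False) (∑ i ∈ S, a i) := by
  classical
  induction S using Finset.induction_on with
  | empty =>
    rw [Finset.sum_empty, Finset.sum_empty]
    have h1 : part F ∅ = ⊥ := by
      unfold part
      rw [iSup_of_empty]
    refine num_bot _ fun z => ?_
    have h2 : (z : M) ∈ (⊥ : IntermediateField k M) := by
      rw [← h1]
      exact z.2
    obtain ⟨r, hr⟩ := IntermediateField.mem_bot.1 h2
    exact ⟨r, Subtype.ext hr⟩
  | insert i S hi ih =>
    have hessS : Algebra.EssFiniteType k (part F S) := part_ess F S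
    rw [Finset.sum_insert hi, Finset.sum_insert hi, part_insert]
    refine (sup_two (F i) (part F S) (hd i) (part_trdeg F hd hM hsup S) ?_).2.2 _ _ (ha i) ih
    rw [← part_insert, part_trdeg F hd hM hsup, Finset.sum_insert hi]

/-- **The numerical dimension of a product.** -/
theorem num_prod (hd : ∀ i, Algebra.trdeg k (F i) = d i)
    (hM : Algebra.trdeg k M = (∑ i, d i : ℕ)) (hsup : ⨆ i, F i = ⊤) {a : Fin s → ℕ}
    (ha : ∀ i, NumLe k (F i) (d i) (fun _ => False) (a i)) :
    NumLe k M (∑ i, d i) (fun _ => False) (∑ i, a i) := by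
  classical
  have h1 := num_part F hd hM hsup ha Finset.univ
  have h2 : part F Finset.univ = ⊤ := by
    rw [eq_top_iff, ← hsup]
    exact iSup_le fun i => le_part F (Finset.mem_univ i)
  rw [h2] at h1
  have hessM : Algebra.EssFiniteType k M := by
    have h3 : Algebra.EssFiniteType k (part F Finset.univ) := part_ess F Finset.univ
    rw [h2] at h3
    exact Algebra.EssFiniteType.of_surjective (IntermediateField.topEquiv : _ ≃ₐ[k] M).toAlgHom
      IntermediateField.topEquiv.surjective
  exact (iso_all (topEquiv (F := k) (E := M)).symm hM).2.2 _ h1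

end

end Q36.GP
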