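import Pool.Agent.Q36.GP.Pt

/-!
The numerical dimension of a product of two varieties is at most the sum.
-/

set_option autoImplicit false
set_option linter.overlappingInstances false
set_option linter.unusedSectionVars false

open FF IntermediateField Pool.Agent.W619.PQ Pool.Agent.W619.PL Pool.Agent.W619.TW
  Pool.Agent.W603.LV
open Pool.Agent.W619.Y (BdTwo)
open Pool.Agent.W460.PG.ONE (VV finrank_VV eval det_dual)
open scoped TensorProduct

namespace Q36.GP

section

variable {k M : Type} [Field k] [Field M] [Algebra k M] [CharZero k] [IsAlgClosed k]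
  (A B : IntermediateField k M) {p q : ℕ} [Algebra.EssFiniteType k B]

/-- nonzero sections on a product give nonzero sections on the factors -/
theorem nonzero_two (hA : Algebra.trdeg k A = p) (hB : Algebra.trdeg k B = q)
    (hM : Algebra.trdeg k M = (p + q : ℕ)) (hsup : A ⊔ B = ⊤) (BA : Place k A → Prop)
    (BB : Place k B → Prop) (S : Finset M) : ∃ (SA : Finset A) (SB : Finset B), ∀ (m j : ℕ)
      (ω : (Fin (p + q) → Derivation k M M) → M), IsSec k M (p + q) (BdTwo A B BA BB) S m j ω →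
      (∃ D, ω D ≠ 0) →
      (∃ ω' : (Fin p → Derivation k A A) → A, IsSec k A p BA SA m j ω' ∧ ∃ D, ω' D ≠ 0) ∧
      ∃ ω' : (Fin q → Derivation k B B) → B, IsSec k B q BB SB m j ω' ∧ ∃ D, ω' D ≠ 0 := by
  classical
  have h := pr_of_trdeg hA hB hM hsup
  have h' := pr_symm hA hB hM hsup
  obtain ⟨F⟩ := exists_frm h hA hB hM rfl
  obtain ⟨h0, SA, SB, hne, hbase⟩ := prod_base h h' hA hB rfl F BA BB S
  refine ⟨SA, SB, fun m j ω hω hD => ?_⟩
  obtain ⟨r, a, b, ha, hb, hsum⟩ := hbase m j ω hω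
  have hωE : ω F.E ≠ 0 := by
    intro h0
    obtain ⟨D, hD⟩ := hD
    apply hD
    rw [eval F.z F.hz F.E (fun i j => by rw [F.g]; simp [eq_comm]) hω.1 D, h0, mul_zero]
  have hex : ∃ l, (a l : M) * (b l : M) ≠ 0 := by
    by_contra hcon
    push Not at hcon
    have h3 : h0 ^ j * ω F.E = 0 := by
      rw [hsum]
      exact Finset.sum_eq_zero fun i _ => hcon i
    exact (mul_ne_zero (pow_ne_zero j hne) hωE) h3
  obtain ⟨l, hl⟩ := hex
  have hal : a l ≠ 0 := fun h => hl (by rw [h]; simp)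
  have hbl : b l ≠ 0 := fun h => hl (by rw [h]; simp)
  choose EA hEA using fun j => exists_dual F.x F.hx j
  choose EB hEB using fun j => exists_dual F.y F.hy j
  have hdA := det_dual F.x EA (fun i j => hEA j i)
  have hdB := det_dual F.y EB (fun i j => hEB j i)
  refine ⟨⟨_, ha l, EA, ?_⟩, ⟨_, hb l, EB, ?_⟩⟩
  · change a l * (Matrix.of fun i j => EA i (F.x j)).det ^ m ≠ 0
    rw [hdA, one_pow, mul_one]
    exact hal
  · change b l * (Matrix.of fun i j => EB i (F.y j)).det ^ m ≠ 0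
    rw [hdB, one_pow, mul_one]
    exact hbl

/-- **Pseudo-effectivity of a product.** -/
theorem psef_two (hA : Algebra.trdeg k A = p) (hB : Algebra.trdeg k B = q)
    (hM : Algebra.trdeg k M = (p + q : ℕ)) (hsup : A ⊔ B = ⊤) (BA : Place k A → Prop)
    (BB : Place k B → Prop) (h : IsPsef k M (p + q) (BdTwo A B BA BB)) :
    IsPsef k A p BA ∧ IsPsef k B q BB := by
  obtain ⟨S, hS⟩ := h
  obtain ⟨SA, SB, hn⟩ := nonzero_two A B hA hB hM hsup BA BB S
  refine ⟨⟨SA, fun N => ?_⟩, ⟨SB, fun N => ?_⟩⟩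
  · obtain ⟨j, hj, ω, hω, hD⟩ := hS N
    exact ⟨j, hj, (hn _ _ ω hω hD).1⟩
  · obtain ⟨j, hj, ω, hω, hD⟩ := hS N
    exact ⟨j, hj, (hn _ _ ω hω hD).2⟩

/-- **Numerical dimension `-∞`.** -/
theorem neg_two (hA : Algebra.trdeg k A = p) (hB : Algebra.trdeg k B = q)
    (hM : Algebra.trdeg k M = (p + q : ℕ)) (hsup : A ⊔ B = ⊤) (BA : Place k A → Prop)
    (BB : Place k B → Prop) (h : NumNeg k A p BA ∨ NumNeg k B q BB) :
    NumNeg k M (p + q) (BdTwo A B BA BB) := by
  intro S
  obtain ⟨SA, SB, hn⟩ := nonzero_two A B hA hB hM hsup BA BB S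
  have one : ∀ {K : Type} [Field K] [Algebra k K] {n : ℕ} {ω : (Fin n → Derivation k K K) → K},
      (∃ D, ω D ≠ 0) → LinearIndependent k (fun _ : Fin 1 => ω) := by
    intro K _ _ n ω hD
    rw [linearIndependent_unique_iff]
    rintro h0
    obtain ⟨D, hD⟩ := hD
    exact hD (congrFun h0 D)
  have key : ∀ m, HasIndep k M (p + q) 1 (IsSec k M (p + q) (BdTwo A B BA BB) S m 1) →
      HasIndep k A p 1 (IsSec k A p BA SA m 1) ∧ HasIndep k B q 1 (IsSec k B q BB SB m 1) := by
    rintro m ⟨ω, hω, hs⟩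
    have hD : ∃ D, ω 0 D ≠ 0 := by
      by_contra hcon
      push Not at hcon
      exact hω.ne_zero 0 (funext fun D => hcon D)
    obtain ⟨⟨ωA, h1, h2⟩, ⟨ωB, h3, h4⟩⟩ := hn m 1 (ω 0) (hs 0) hD
    exact ⟨⟨fun _ => ωA, one h2, fun _ => h1⟩, ⟨fun _ => ωB, one h4, fun _ => h3⟩⟩
  rcases h with h | h
  · obtain ⟨m0, hm0⟩ := h SA
    exact ⟨m0, fun m hm hc => hm0 m hm (key m hc).1⟩
  · obtain ⟨m0, hm0⟩ := h SB
    exact ⟨m0, fun m hm hc => hm0 m hm (key m hc).2⟩

/-- **The numerical dimension of a product.** -/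
theorem num_two (hA : Algebra.trdeg k A = p) (hB : Algebra.trdeg k B = q)
    (hM : Algebra.trdeg k M = (p + q : ℕ)) (hsup : A ⊔ B = ⊤) (BA : Place k A → Prop)
    (BB : Place k B → Prop) {a b : ℕ} (ha : NumLe k A p BA a) (hb : NumLe k B q BB b) :
    NumLe k M (p + q) (BdTwo A B BA BB) (a + b) := by
  classical
  intro S
  have h := pr_of_trdeg hA hB hM hsup
  have h' := pr_symm hA hB hM hsup
  obtain ⟨F⟩ := exists_frm h hA hB hM rfl
  obtain ⟨h0, SA, SB, hne, hbase⟩ := prod_base h h' hA hB rfl F BA BB S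
  obtain ⟨CA, hCA⟩ := ha SA
  obtain ⟨CB, hCB⟩ := hb SB
  refine ⟨CA * CB, fun m N hm hN => ?_⟩
  obtain ⟨ω, hω, hs⟩ := hN
  obtain ⟨hfA, hrA⟩ := finrank_VV BA SA m 1 F.x F.hx (CA * m ^ a) fun N hN => hCA m N hm hN
  obtain ⟨hfB, hrB⟩ := finrank_VV BB SB m 1 F.y F.hy (CB * m ^ b) fun N hN => hCB m N hm hN
  let Φ : (VV k BA SA m 1 F.x ⊗[k] VV k BB SB m 1 F.y) →ₗ[k] M :=
    TensorProduct.lift (LinearMap.mk₂ k (fun u v => ((u : A) : M) * ((v : B) : M))
      (fun u u' v => by
        change (((u : A) + (u' : A) : A) : M) * _ = _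
        push_cast
        ring)
      (fun c u v => by
        change (c • ((u : A) : M)) * _ = _
        rw [smul_mul_assoc])
      (fun u v v' => by
        change _ * (((v : B) + (v' : B) : B) : M) = _
        push_cast
        ring)
      (fun c u v => by
        change _ * (c • ((v : B) : M)) = _
        rw [mul_smul_comm]))
  have hmem : ∀ l, h0 ^ 1 * ω l F.E ∈ LinearMap.range Φ := by
    intro l
    obtain ⟨r, a, b, ha, hb, hsum⟩ := hbase m 1 (ω l) (hs l)
    rw [hsum]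
    refine Submodule.sum_mem _ fun i _ => ⟨(⟨a i, ha i⟩ : VV k BA SA m 1 F.x) ⊗ₜ[k]
      (⟨b i, hb i⟩ : VV k BB SB m 1 F.y), ?_⟩
    simp [Φ]
  let T : Fin N → LinearMap.range Φ := fun l => ⟨_, hmem l⟩
  have hT : LinearIndependent k T := by
    rw [Fintype.linearIndependent_iff] at hω ⊢
    intro g hg
    refine hω g ?_
    have h3 : ∑ l, g l • (h0 ^ 1 * ω l F.E) = 0 := by
      have h4 := congrArg (fun z : LinearMap.range Φ => (z : M)) hg
      change ((∑ l, g l • T l : LinearMap.range Φ) : M) = 0 at h4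
      rw [AddSubmonoidClass.coe_finsetSum] at h4
      exact h4
    have h4 : h0 ^ 1 * ∑ l, g l • ω l F.E = 0 := by
      rw [← h3, Finset.mul_sum]
      refine Finset.sum_congr rfl fun l _ => ?_
      rw [mul_smul_comm]
    have h6 : ∑ l, g l • ω l F.E = 0 := (mul_eq_zero.1 h4).resolve_left (pow_ne_zero 1 hne)
    funext D
    rw [Finset.sum_apply]
    simp only [Pi.smul_apply, Pi.zero_apply]
    calc ∑ l, g l • ω l D = (Matrix.of fun i j => D i (F.z j)).det ^ m *
          ∑ l, g l • ω l F.E := by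
          rw [Finset.mul_sum]
          refine Finset.sum_congr rfl fun l _ => ?_
          rw [eval F.z F.hz F.E (fun i j => by rw [F.g]; simp [eq_comm]) (hs l).1 D,
            mul_smul_comm]
      _ = 0 := by rw [h6, mul_zero]
  have h5 := hT.fintype_card_le_finrank
  rw [Fintype.card_fin] at h5
  have h6 := LinearMap.finrank_range_le Φ
  rw [Module.finrank_tensorProduct] at h6
  calc N ≤ Module.finrank k (VV k BA SA m 1 F.x) * Module.finrank k (VV k BB SB m 1 F.y) :=
        h5.trans h6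
    _ ≤ (CA * m ^ a) * (CB * m ^ b) := Nat.mul_le_mul hrA hrB
    _ = CA * CB * m ^ (a + b) := by rw [pow_add]; ring

end

end Q36.GP
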