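import Pool.Agent.Q36.GP.Fr
import Pool.Agent.W460.PG.ONE
import Pool.Agent.W619.Y.Eqv

/-!
Sections on the product of two varieties.
-/

set_option autoImplicit false
set_option linter.overlappingInstances false
set_option linter.unusedSectionVars false

open FF IntermediateField Pool.Agent.W619.PQ Pool.Agent.W619.PL Pool.Agent.W619.TW
  Pool.Agent.W603.LV
open Pool.Agent.W619.Y (BdTwo)
open Pool.Agent.W460.PG.ONE (VV finrank_VV eval det_dual)
open scoped TensorProduct

namespace Q36.GP

section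

variable {k M : Type} [Field k] [Field M] [Algebra k M] {A B : IntermediateField k M} {q : ℕ}
  {y : Fin q → B} {π : MvPolynomial (Fin q) A} {v : Place k (KZ A y)} {P : Place k M}
  {e : ℕ}

theorem Gd.regRR (hv : Gd A y π v) (hP : Over P v e) (hy : IsTranscendenceBasis k y) {z : M}
    (hz : z ∈ RR A B) : P.Reg z := by
  unfold RR at hz
  induction hz using Algebra.adjoin_induction with
  | mem x hx => exact Or.inr (hv.ordA hP ⟨x, hx⟩).ge
  | algebraMap b => exact Or.inr (hv.ordB hP hy b).ge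
  | add x y _ _ hx hy => exact P.reg_add hx hy
  | mul x y _ _ hx hy => exact P.reg_mul hx hy

theorem RR_comm {z : M} (hz : z ∈ RR A B) : z ∈ RR B A := by
  unfold RR at hz
  induction hz using Algebra.adjoin_induction with
  | mem x hx => exact RR.right hx
  | algebraMap b => exact RR.left b.2
  | add x y _ _ hx hy => exact add_mem hx hy
  | mul x y _ _ hx hy => exact mul_mem hx hy

theorem bdTwo_comm (BA : Place k A → Prop) (BB : Place k B → Prop) :
    BdTwo A B BA BB = BdTwo B A BB BA := by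
  funext w
  exact propext or_comm

/-- common denominators -/
theorem exists_den (h : Pr A B) (S : Finset M) : ∃ h0 : M, h0 ≠ 0 ∧ h0 ∈ RR A B ∧
    ∀ s ∈ S, h0 * s ∈ RR A B := by
  classical
  induction S using Finset.induction_on with
  | empty => exact ⟨1, one_ne_zero, one_mem _, by simp⟩
  | insert s S hs ih =>
    obtain ⟨h0, h1, h2, h3⟩ := ih
    obtain ⟨a, ha, b, hb, hb0, hab⟩ := h.frac s
    refine ⟨h0 * b, mul_ne_zero h1 hb0, mul_mem h2 hb, fun t ht => ?_⟩
    rcases Finset.mem_insert.1 ht with rfl | ht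
    · have h4 : h0 * b * t = h0 * a := by
        rw [hab]
        field_simp
      rw [h4]
      exact mul_mem h2 ha
    · have h4 : h0 * b * t = h0 * t * b := by ring
      rw [h4]
      exact mul_mem (h3 t ht) hb

end

section

variable {k M : Type} [Field k] [Field M] [Algebra k M] [CharZero k]
  {A B : IntermediateField k M} {p q n : ℕ}

/-- **Sections are in the ring, up to a fixed denominator.** -/
theorem sec_RR (h : Pr A B) [Algebra.EssFiniteType k B] (hn : p + q = n) (F : Frm A B p q n)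
    (BA : Place k A → Prop) (BB : Place k B → Prop) (S : Finset M) :
    ∃ h0 : M, h0 ≠ 0 ∧ ∀ (m j : ℕ) (ω : (Fin n → Derivation k M M) → M),
      IsSec k M n (BdTwo A B BA BB) S m j ω → h0 ^ j * ω F.E ∈ RR A B := by
  classical
  obtain ⟨h0, h1, h2, h3⟩ := exists_den h S
  refine ⟨h0, h1, fun m j ω hω => ?_⟩
  have hfin : FiniteDimensional (KY F.y) B := Pool.Agent.W619.Y.fin_over F.y F.hy
  have hyA := h.algInd F.hy.1
  refine mem_RR_of_gd h F.hy hyA fun π v hv P e hP => ?_
  have hdiv : IsDivisorial P n := by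
    rw [← hn]
    exact hv.div hP hyA F.x F.hx.1
  have hnb : ¬ BdTwo A B BA BB P := by
    rintro (⟨u, e', ho, -⟩ | ⟨u, e', ho, -⟩)
    · obtain ⟨s, -, hs1⟩ := u.surj
      have h5 := ho.2 s
      have h6 : P.ord (algebraMap A M s) = 0 := hv.ordA hP s
      rw [h6, hs1, mul_one] at h5
      have := ho.1
      omega
    · obtain ⟨s, -, hs1⟩ := u.surj
      have h5 := ho.2 s
      have h6 : P.ord (algebraMap B M s) = 0 := hv.ordB hP F.hy s
      rw [h6, hs1, mul_one] at h5
      have := ho.1
      omega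
  have hpres : ∀ a, Pres P (F.E a) := by
    intro a
    obtain ⟨c, rfl⟩ := F.ε.surjective a
    rcases c with i | i
    · refine hv.pres h hP F.hy hyA _ (F.e3 i) (fun b => ⟨0, F.e1 i b⟩) fun j => ⟨0, F.e1 i _⟩
    · refine hv.pres h hP F.hy hyA _ (fun a => ⟨0, F.f1 i a⟩) (F.f3 i) fun j => ?_
      rw [F.f2]
      by_cases hij : i = j
      · exact ⟨1, by rw [if_pos hij]; rfl⟩
      · exact ⟨0, by rw [if_neg hij]; rfl⟩
  rcases hω.2.1 P hdiv hnb F.E hpres with h4 | ⟨s, hs, hs0, h4⟩
  · left
    rw [h4, mul_zero]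
  · by_cases h5 : ω F.E = 0
    · left
      rw [h5, mul_zero]
    right
    rw [P.ord_mul (pow_ne_zero j h1) h5, P.ord_pow]
    have h6 : P.Reg (h0 * s) := hv.regRR hP F.hy (h3 s hs)
    have h7 := h6.resolve_left (mul_ne_zero h1 hs0)
    rw [P.ord_mul h1 hs0] at h7
    have h8 : 0 ≤ (j : ℤ) * (P.ord h0 + P.ord s) := mul_nonneg (by positivity) h7
    rw [mul_add] at h8
    omega

/-- **The sections on a product are sums of products of sections on the factors.** -/
theorem prod_base [IsAlgClosed k] (h : Pr A B) (h' : Pr B A) (hA : Algebra.trdeg k A = p)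
    (hB : Algebra.trdeg k B = q) [Algebra.EssFiniteType k B] (hn : p + q = n)
    (F : Frm A B p q n) (BA : Place k A → Prop) (BB : Place k B → Prop) (S : Finset M) :
    ∃ (h0 : M) (SA : Finset A) (SB : Finset B), h0 ≠ 0 ∧
      ∀ (m j : ℕ) (ω : (Fin n → Derivation k M M) → M),
      IsSec k M n (BdTwo A B BA BB) S m j ω → ∃ (r : ℕ) (a : Fin r → A) (b : Fin r → B),
        (∀ l, a l ∈ VV k BA SA m j F.x) ∧ (∀ l, b l ∈ VV k BB SB m j F.y) ∧
        h0 ^ j * ω F.E = ∑ l, (a l : M) * (b l : M) := by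
  classical
  obtain ⟨h0, hne, hRR⟩ := sec_RR h hn F BA BB S
  obtain ⟨SA, hSA⟩ := desc h hA BA BB F.x F.hx F.y F.hy.1 F.ε F.E F.e1 F.e2 F.f1 F.f3 S h0 hne
  obtain ⟨SB, hSB⟩ := desc h' hB BB BA F.y F.hy F.x F.hx.1 F.swap.ε F.E F.f1 F.f2 F.e1 F.e3 S h0
    hne
  refine ⟨h0, SA, SB, hne, fun m j ω hω => ?_⟩
  obtain ⟨r, β, μ, hβ, hsum⟩ :=
    Pool.Agent.W735.PG.DESCJ.expandFin (RR_comm (hRR m j ω hω))
  have hμ : ∀ i, μ i ∈ VV k BA SA m j F.x := fun i => hSA m j ω hω r β μ hβ hsum i
  let W : Submodule k A := Submodule.span k (Set.range μ)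
  have hW : W ≤ VV k BA SA m j F.x := by
    rw [Submodule.span_le]
    rintro _ ⟨i, rfl⟩
    exact hμ i
  have hWf : FiniteDimensional k W := FiniteDimensional.span_of_finite k (Set.finite_range μ)
  let b := Module.finBasis k W
  let μ' : Fin r → W := fun i => ⟨μ i, Submodule.subset_span ⟨i, rfl⟩⟩
  have hμ' : ∀ i, μ i = ∑ l, b.repr (μ' i) l • (b l : A) := by
    intro i
    have h1 := b.sum_repr (μ' i)
    have h2 := congrArg (fun z : W => (z : A)) h1
    change ((∑ l, b.repr (μ' i) l • b l : W) : A) = μ i at h2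
    rw [← h2, AddSubmonoidClass.coe_finsetSum]
    rfl
  let β' : Fin (Module.finrank k W) → B := fun l => ∑ i, b.repr (μ' i) l • β i
  have hsum' : h0 ^ j * ω F.E = ∑ l, ((b l : A) : M) * (β' l : M) := by
    rw [hsum]
    have h1 : ∀ i, (β i : M) * (μ i : M) =
        ∑ l, ((b l : A) : M) * ((b.repr (μ' i) l • β i : B) : M) := by
      intro i
      conv_lhs => rw [hμ' i]
      rw [AddSubmonoidClass.coe_finsetSum, Finset.mul_sum]
      refine Finset.sum_congr rfl fun l _ => ?_
      change (β i : M) * (b.repr (μ' i) l • ((b l : A) : M)) =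
        ((b l : A) : M) * (b.repr (μ' i) l • (β i : M))
      rw [Algebra.smul_def, Algebra.smul_def]
      ring
    rw [Finset.sum_congr rfl fun i _ => h1 i, Finset.sum_comm]
    refine Finset.sum_congr rfl fun l _ => ?_
    rw [← Finset.mul_sum, AddSubmonoidClass.coe_finsetSum]
  have hbli : LinearIndependent k (fun l => (b l : A)) :=
    b.linearIndependent.map' W.subtype (Submodule.ker_subtype W)
  have hω' : IsSec k M n (BdTwo B A BB BA) S m j ω := by
    rw [← bdTwo_comm]
    exact hω
  exact ⟨_, fun l => (b l : A), β', fun l => hW (b l).2,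
    fun l => hSB m j ω hω' _ _ _ hbli hsum' l, hsum'⟩

end

end Q36.GP
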